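import Pool.Agent.LNS.Defs
import Pool.Agent.LKZ.Dic
import Pool.Agent.LKS.Ind

/-!
# LNS/ClG: links in the 3-sphere, all components of Gluck type   (difficulty 1)

PROOF.  As in `LKZ/Top.lean`: `LKS.fin4 hk (prd_link hκ) (fun i => KNH.prd_equi (κ i)) (fun i l => KNH.prd_core l) n 0` and `LKZ.dicL`; the matrix of `IsRollGluckL κ n 0` is
`1, 1 - 0, 1, -0`.
-/

open scoped Manifold ContDiff Topology
open Set Filter
open Pool.Agent.RSG
open Pool.Agent.LKZ (ThickL OnLink TwinL)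
open Pool.Agent.LKB (Mf Std)

namespace Pool.Agent.LNS

theorem gluck_S3 {ι : Type} [Finite ι] {r : ℕ} (hk : Nat.card ι = r + 1) {κ : ι → ℝ × ℂ → S3} (hκ : ThickL κ) (n : ι → ℤ) :
    ∃ M : Mf, Std r M ∧ Nonempty (TwinL κ (fun _ => 1) (fun _ => 1) (fun _ => 1) (fun _ => 0) n M.X) := by
  obtain ⟨M, hM, hD⟩ := LKS.fin4 hk (LKZ.prd_link hκ) (fun i => KNH.prd_equi (κ i))
    (c := fun i l => κ i (l, 0)) (fun i l => KNH.prd_core l) n 0
  refine ⟨M, hM, ?_⟩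
  have h : Nonempty (TwinL κ 1 (1 - 0) 1 (-0) n M.X) := LKZ.dicL.1 hD
  have e1 : (1 : ι → ℤ) = fun _ => 1 := rfl
  have e2 : (1 - 0 : ι → ℤ) = fun _ => 1 := by
    funext i
    simp
  have e3 : (-0 : ι → ℤ) = fun _ => 0 := by
    funext i
    simp
  rw [e2, e3, e1] at h
  exact h

end Pool.Agent.LNS
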