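import Pool.Agent.LNS.Defs

/-!
# LNS/DcL: one component   (difficulty 1)

`ι` has one element: `TwinL` is `TwinData` (compare `LKS/Ind.lean`, `twin_one`), `DualL` is `Dual`, `ThickL` is `Thick`.
-/

open scoped Manifold ContDiff Topology
open Pool.Agent.RSG
open Pool.Agent.NHS (Uni Dual)
open Pool.Agent.LKZ (ThickL OnLink TwinL)

namespace Pool.Agent.LNS

variable {N : Type*} [TopologicalSpace N] [ChartedSpace E3 N] {N' : Type*} [TopologicalSpace N'] [ChartedSpace E3 N']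
  {ι : Type*} [Subsingleton ι] {κ : ι → ℝ × ℂ → N} {κ' : ι → ℝ × ℂ → N'}

theorem onLink_one (i₀ : ι) {x : N} : OnLink κ x ↔ OnKnot (κ i₀) x := by
  constructor
  · rintro ⟨i, h⟩
    rw [Subsingleton.elim i i₀] at h
    exact h
  · intro h
    exact ⟨i₀, h⟩

theorem thickL_one (i₀ : ι) (h : Thick (κ i₀)) : ThickL κ := by
  refine ⟨fun i => ?_, fun _ _ _ _ _ _ _ _ _ => Subsingleton.elim _ _⟩
  rw [Subsingleton.elim i i₀]
  exact h

theorem dic_one (i₀ : ι) {a₁ b₁ a₂ b₂ n : ι → ℤ} {X : Type*} [TopologicalSpace X] [ChartedSpace E4 X] :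
    Nonempty (TwinL κ a₁ b₁ a₂ b₂ n X) ↔ Nonempty (TwinData (κ i₀) (a₁ i₀) (b₁ i₀) (a₂ i₀) (b₂ i₀) (n i₀) X) := by
  have hon : ∀ x : N, OnLink κ x ↔ OnKnot (κ i₀) x := fun x => onLink_one i₀
  have hi : ∀ i, i = i₀ := fun i => Subsingleton.elim i i₀
  constructor
  · rintro ⟨D⟩
    exact ⟨{
      A := D.A
      Q := D.Q i₀
      A_per := D.A_per
      A_loc := fun x t hx => D.A_loc x t (fun h => hx ((hon x).1 h))
      A_inj := fun x x' t t' hx hx' => D.A_inj x x' t t' (fun h => hx ((hon x).1 h)) (fun h => hx' ((hon x').1 h))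
      Q_loc := fun z hz => D.Q_loc i₀ z hz
      Q_inj := fun z z' hz hz' h => (D.Q_inj i₀ z i₀ z' hz hz' h).2
      glue := fun z l m t hz h1 h2 e1 e2 e3 => D.glue i₀ z l m t hz h1 h2 e1 e2 e3
      disj := fun z x t hz hc hx => D.disj i₀ z x t hz hc (fun h => hx ((hon x).1 h))
      cover := by
        intro q
        rcases D.cover q with ⟨x, t, hx, h⟩ | ⟨i, z, hz, h⟩
        · exact Or.inl ⟨x, t, fun h' => hx ((hon x).2 h'), h⟩
        · rw [hi i] at h
          exact Or.inr ⟨z, hz, h⟩ }⟩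
  · rintro ⟨D⟩
    exact ⟨{
      A := D.A
      Q := fun _ => D.Q
      A_per := D.A_per
      A_loc := fun x t hx => D.A_loc x t (fun h => hx ((hon x).2 h))
      A_inj := fun x x' t t' hx hx' => D.A_inj x x' t t' (fun h => hx ((hon x).2 h)) (fun h => hx' ((hon x').2 h))
      Q_loc := fun _ z hz => D.Q_loc z hz
      Q_inj := fun i z i' z' hz hz' h => ⟨Subsingleton.elim _ _, D.Q_inj z z' hz hz' h⟩
      glue := by
        intro i z l m t hz h1 h2 e1 e2 e3
        rw [hi i] at e1 e2 e3 ⊢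
        exact D.glue z l m t hz h1 h2 e1 e2 e3
      disj := fun _ z x t hz hc hx => D.disj z x t hz hc (fun h => hx ((hon x).2 h))
      cover := by
        intro q
        rcases D.cover q with ⟨x, t, hx, h⟩ | ⟨z, hz, h⟩
        · exact Or.inl ⟨x, t, fun h' => hx ((hon x).1 h'), h⟩
        · exact Or.inr ⟨i₀, z, hz, h⟩ }⟩

theorem dual_one (i₀ : ι) {q : ι → ℤ} {F : N' → N} (h : DualL q κ κ' F) : Dual (q i₀) (κ i₀) (κ' i₀) F := by
  have hon : ∀ x : N, OnLink κ x ↔ OnKnot (κ i₀) x := fun x => onLink_one i₀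
  have hon' : ∀ x : N', OnLink κ' x ↔ OnKnot (κ' i₀) x := fun x => onLink_one i₀
  refine ⟨fun x hx => ?_, fun x hx => ?_, fun x x' hx hx' he => ?_, fun y hy => ?_, fun l m r h0 h1 => ?_⟩
  · intro h'
    exact h.off x (fun h'' => hx ((hon' x).1 h'')) ((hon _).2 h')
  · exact h.loc x (fun h'' => hx ((hon' x).1 h''))
  · exact h.inj x x' (fun h'' => hx ((hon' x).1 h'')) (fun h'' => hx' ((hon' x').1 h'')) he
  · obtain ⟨x, hx, he⟩ := h.surj y (fun h'' => hy ((hon y).1 h''))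
    exact ⟨x, fun h'' => hx ((hon' x).2 h''), he⟩
  · exact h.near i₀ l m r h0 h1

end Pool.Agent.LNS
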