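import Pool.Agent.NHS.Defs
import Pool.Agent.LKZ.Defs
import Pool.Agent.LKB.Defs

/-!
# LNS/Defs: twin manifolds of links in 3-manifolds, homotopies and surgeries, definitions

* `SeifL κ k φ`: `φ : N - L → S¹` is smooth and equal to `k i` times the meridional angle near the component `i`.
* `DualL q κ κ' F`: `N'` is the result of the `1/q i`-surgeries on the components of the link `κ`, `κ'` is the dual link.
* `Link3 r`, `StepL`, `RelL`: links with `r + 1` components in 3-manifolds up to surgeries and (for knots) homotopies.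
* `Cmp N`: a component together with its matrix `(a₁, b₁, a₂, b₂)`; `TS S n X`: `X` is the twin manifold of the family `S`;
  `OkS S`: the knots form a thick link, the matrices are unimodular.
* `Mv`: the elementary moves of one component; `Rch`: sequences of moves.
-/

open scoped Manifold ContDiff
open Pool.Agent.RSG
open Pool.Agent.NHS (Uni sh)
open Pool.Agent.NHT (FreeHomotopic GenH1)
open Pool.Agent.LKZ (ThickL OnLink TwinL)

namespace Pool.Agent.LNS

section
variable {N N' : Type*} [TopologicalSpace N] [ChartedSpace E3 N] [TopologicalSpace N'] [ChartedSpace E3 N'] {ι : Type*}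

/-- `φ : N - L → S¹` is smooth and is the angle `k i * m` near the component `i` -/
structure SeifL (κ : ι → ℝ × ℂ → N) (k : ι → ℤ) (φ : N → ℂ) : Prop where
  smooth : ∀ x, ¬ OnLink κ x → ContMDiffAt (𝓡 3) 𝓘(ℝ, ℂ) ∞ φ x
  norm : ∀ x, ¬ OnLink κ x → ‖φ x‖ = 1
  near : ∀ (i : ι) (l m r : ℝ), 0 < r → r < 1 → φ (κ i (l, r * ex m)) = ex (k i * m)

/-- `N'` is the result of the surgeries on the components `κ i` with slopes `meridian + q i * longitude`, `κ'` is the dual
link: `F` is a diffeomorphism `N' - L' → N - L` and `F (κ' i (l, r ex m)) = κ i (l + q i * m, r ex m)`. -/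
structure DualL (q : ι → ℤ) (κ : ι → ℝ × ℂ → N) (κ' : ι → ℝ × ℂ → N') (F : N' → N) : Prop where
  off : ∀ x, ¬ OnLink κ' x → ¬ OnLink κ (F x)
  loc : ∀ x, ¬ OnLink κ' x → IsLocalDiffeomorphAt (𝓡 3) (𝓡 3) ∞ F x
  inj : ∀ x x', ¬ OnLink κ' x → ¬ OnLink κ' x' → F x = F x' → x = x'
  surj : ∀ y, ¬ OnLink κ y → ∃ x, ¬ OnLink κ' x ∧ F x = y
  near : ∀ (i : ι) (l m r : ℝ), 0 < r → r < 1 → F (κ' i (l, r * ex m)) = κ i (l + q i * m, r * ex m)

end

/-- a thick link with the `r + 1` components `κ i` in a connected Hausdorff smooth 3-manifold `N` -/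
structure Link3 (r : ℕ) where
  N : Type
  [top : TopologicalSpace N]
  [ch : ChartedSpace E3 N]
  [t2 : T2Space N]
  [mfd : IsManifold (𝓡 3) ∞ N]
  [con : ConnectedSpace N]
  κ : Fin (r + 1) → ℝ × ℂ → N
  thick : ThickL κ

attribute [instance] Link3.top Link3.ch Link3.t2 Link3.mfd Link3.con

/-- The moves: `1/(k i * n i)`-surgeries on the components, where `k i` are the degrees on the meridians of a map of the
complement to the circle which is constant on the longitudes; for knots (`r = 0`) also free homotopies in `N`. -/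
inductive StepL {r : ℕ} (n : Fin (r + 1) → ℤ) : Link3 r → Link3 r → Prop
  | hom (K : Link3 r) (κ' : Fin (r + 1) → ℝ × ℂ → K.N) (h : ThickL κ') :
      r = 0 → FreeHomotopic (K.κ 0) (κ' 0) → StepL n K ⟨K.N, κ', h⟩
  | surg (K K' : Link3 r) (k : Fin (r + 1) → ℤ) (φ : K.N → ℂ) (F : K'.N → K.N) :
      SeifL K.κ k φ → DualL (fun i => k i * n i) K.κ K'.κ F → StepL n K K'

/-- the equivalence relation generated by the moves -/
def RelL {r : ℕ} (n : Fin (r + 1) → ℤ) : Link3 r → Link3 r → Prop := Relation.EqvGen (StepL n)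

/-! ## one component with its matrix -/

/-- the matrix `(a₁, b₁, a₂, b₂)` -/
abbrev Mat := ℤ × ℤ × ℤ × ℤ

def UniM (R : Mat) : Prop := Uni R.1 R.2.1 R.2.2.1 R.2.2.2

/-- a component together with its matrix -/
abbrev Cmp (N : Type*) := (ℝ × ℂ → N) × Mat

section
variable {N : Type*} [TopologicalSpace N] [ChartedSpace E3 N] {ι : Type*}

/-- twin data of a family of components -/
abbrev TwinS (S : ι → Cmp N) (n : ι → ℤ) (X : Type*) [TopologicalSpace X] [ChartedSpace E4 X] :=
  TwinL (fun i => (S i).1) (fun i => (S i).2.1) (fun i => (S i).2.2.1) (fun i => (S i).2.2.2.1) (fun i => (S i).2.2.2.2) n X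

def TS (S : ι → Cmp N) (n : ι → ℤ) (X : Type*) [TopologicalSpace X] [ChartedSpace E4 X] : Prop := Nonempty (TwinS S n X)

structure OkS (S : ι → Cmp N) : Prop where
  link : ThickL fun i => (S i).1
  uni : ∀ i, UniM (S i).2

end

/-- the elementary moves of one component -/
inductive Mv {N : Type*} : Cmp N → Cmp N → Prop
  | neg1 (κ : ℝ × ℂ → N) (a b c d : ℤ) : Mv (κ, a, b, c, d) (κ, -a, -b, c, d)
  | neg2 (κ : ℝ × ℂ → N) (a b c d : ℤ) : Mv (κ, a, b, c, d) (κ, a, b, -c, -d)
  | swap (κ : ℝ × ℂ → N) (a b c d : ℤ) : Mv (κ, a, b, c, d) (sh κ, c, d, a, b)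
  | psi (κ : ℝ × ℂ → N) (a b c d : ℤ) : Mv (κ, a, b, c, d) (sh κ, 2 * a - c, 2 * b - d, a, b)

/-- sequences of moves -/
def Rch {N : Type*} : Cmp N → Cmp N → Prop := Relation.ReflTransGen Mv

end Pool.Agent.LNS
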