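import Pool.Agent.NHS.Rel
import Pool.Agent.LNS.Defs

/-!
# LNS/KnS: knots in the 3-sphere   (difficulty 2)

PROOFS.  `free_S3`: every loop of `S3` is null-homotopic (`NHS.gns_loop`), so any two loops are freely homotopic: `H (s, l)` for `0 ≤ s ≤ 1/3` the null-homotopy of the first core
(as periodic function of `l`: use `Int.fract l`, continuity at the ends because the homotopy is rel end points), then a path between the two base points (constant loops), then the
null-homotopy of the second core reversed.  The definition is in `NHT/Hyp.lean`; see `NHS/GnH.lean`, `NHS/Lps.lean`, `NHH/Bgm.lean` for the conversion between paths and periodic maps; it may be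
easier to prove: a loop with trivial class is freely homotopic to a constant, two constants are freely homotopic (`S3` is path connected), and `FreeHomotopic` (for curves) is symmetric and
transitive (look for `HmC` in `NHW`, `Free...trans` in `NHH`, or glue at `s = 1/2`).
`knot_S3`: `NHS.recognition` with `Relation.EqvGen.rel _ _ (NHS.Step.hom NHS.unknot κ hκ (free_S3 ..))`.
-/

open scoped Manifold ContDiff Topology
open Set Filter
open Pool.Agent.RSG
open Pool.Agent.NHS (Uni)
open Pool.Agent.NHT (FreeHomotopic GenH1)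

namespace Pool.Agent.LNS

theorem kns_trans {N : Type*} [TopologicalSpace N] {κ κ' κ'' : ℝ × ℂ → N} (h : FreeHomotopic κ κ')
    (h' : FreeHomotopic κ' κ'') : FreeHomotopic κ κ'' := by
  obtain ⟨H, a1, a2, a3, a4⟩ := h
  obtain ⟨K, b1, b2, b3, b4⟩ := h'
  refine ⟨fun q => if q.1 ≤ 1 / 2 then H (2 * q.1, q.2) else K (2 * q.1 - 1, q.2), ?_, ?_, ?_, ?_⟩
  · refine Continuous.if_le (a1.comp (by fun_prop)) (b1.comp (by fun_prop)) continuous_fst continuous_const ?_
    rintro ⟨s, l⟩ hs
    have hs' : s = 1 / 2 := hs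
    subst hs'
    show H (2 * (1 / 2), l) = K (2 * (1 / 2) - 1, l)
    rw [show (2 : ℝ) * (1 / 2) = 1 by norm_num, sub_self, a4, b3]
  · intro s l
    show (if s ≤ 1 / 2 then H (2 * s, l + 1) else K (2 * s - 1, l + 1)) = (if s ≤ 1 / 2 then H (2 * s, l) else K (2 * s - 1, l))
    rw [a2, b2]
  · intro l
    show (if (0 : ℝ) ≤ 1 / 2 then H (2 * 0, l) else K (2 * 0 - 1, l)) = _
    rw [if_pos (by norm_num), mul_zero, a3]
  · intro l
    show (if (1 : ℝ) ≤ 1 / 2 then H (2 * 1, l) else K (2 * 1 - 1, l)) = _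
    rw [if_neg (by norm_num), show (2 : ℝ) * 1 - 1 = 1 by norm_num, b4]

theorem kns_symm {N : Type*} [TopologicalSpace N] {κ κ' : ℝ × ℂ → N} (h : FreeHomotopic κ κ') : FreeHomotopic κ' κ := by
  obtain ⟨H, h1, h2, h3, h4⟩ := h
  refine ⟨fun q => H (1 - q.1, q.2), h1.comp (by fun_prop), fun s l => h2 _ _, fun l => ?_, fun l => ?_⟩
  · show H (1 - 0, l) = _
    rw [sub_zero, h4]
  · show H (1 - 1, l) = _
    rw [sub_self, h3]

theorem kns_const {N : Type*} [TopologicalSpace N] {x y : N} (ρ : Path x y) :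
    FreeHomotopic (fun _ : ℝ × ℂ => x) (fun _ : ℝ × ℂ => y) := by
  refine ⟨fun q => ρ.extend q.1, ρ.continuous_extend.comp continuous_fst, fun s l => rfl, fun l => ?_, fun l => ?_⟩
  · exact ρ.extend_zero
  · exact ρ.extend_one

theorem kns_null {κ : ℝ × ℂ → S3} (hκ : Thick κ) : FreeHomotopic κ (fun _ => κ (0, 0)) := by
  have hc : Continuous fun l : ℝ => κ (l, 0) := by
    rw [continuous_iff_continuousAt]
    intro l
    have h1 : ContinuousAt κ (l, 0) := (hκ.loc l 0 (by simp)).contMDiffAt.continuousAt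
    exact h1.comp (f := fun l : ℝ => (l, (0 : ℂ))) (by fun_prop : ContinuousAt (fun l : ℝ => (l, (0 : ℂ))) l)
  let γ : Path (κ (0, 0)) (κ (0, 0)) :=
    { toFun := fun t => κ (t, 0)
      continuous_toFun := hc.comp continuous_subtype_val
      source' := rfl
      target' := by
        have h1 := hκ.per 0 0
        rw [zero_add] at h1
        exact h1 }
  obtain ⟨F⟩ := NHS.gns_loop γ
  have hF0 : ∀ s : unitInterval, F (s, 0) = κ (0, 0) := fun s => F.source s
  have hF1 : ∀ s : unitInterval, F (s, 1) = κ (0, 0) := fun s => F.target s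
  let G : ℝ → ℝ → S3 := fun s l => F (projIcc 0 1 zero_le_one s, projIcc 0 1 zero_le_one l)
  have hG : Continuous (Function.uncurry G) := by
    show Continuous fun q : ℝ × ℝ => F (projIcc 0 1 zero_le_one q.1, projIcc 0 1 zero_le_one q.2)
    exact F.continuous.comp ((continuous_projIcc.comp continuous_fst).prodMk (continuous_projIcc.comp continuous_snd))
  have hG01 : ∀ s, G s 0 = G s 1 := by
    intro s
    show F (projIcc 0 1 zero_le_one s, projIcc 0 1 zero_le_one 0) = F (projIcc 0 1 zero_le_one s, projIcc 0 1 zero_le_one 1)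
    rw [projIcc_left, projIcc_right]
    exact (hF0 _).trans (hF1 _).symm
  refine ⟨fun q => G q.1 (Int.fract q.2), ContinuousOn.comp_fract' hG.continuousOn hG01, ?_, ?_, ?_⟩
  · intro s l
    show G s (Int.fract (l + 1)) = G s (Int.fract l)
    rw [Int.fract_add_one]
  · intro l
    show F (projIcc 0 1 zero_le_one 0, projIcc 0 1 zero_le_one (Int.fract l)) = κ (l, 0)
    rw [projIcc_left]
    have h1 : F ((0 : unitInterval), projIcc 0 1 zero_le_one (Int.fract l)) = γ (projIcc 0 1 zero_le_one (Int.fract l)) :=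
      F.apply_zero _
    refine h1.trans ?_
    show κ ((projIcc 0 1 zero_le_one (Int.fract l) : unitInterval), 0) = κ (l, 0)
    rw [projIcc_of_mem zero_le_one ⟨Int.fract_nonneg l, (Int.fract_lt_one l).le⟩]
    have h2 := per_int hκ.per (Int.fract l) 0 ⌊l⌋
    rw [Int.fract_add_floor] at h2
    exact h2.symm
  · intro l
    show F (projIcc 0 1 zero_le_one 1, projIcc 0 1 zero_le_one (Int.fract l)) = κ (0, 0)
    rw [projIcc_right]
    exact F.apply_one _

theorem kns_path (x y : S3) : Nonempty (Path x y) := by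
  have h0 : IsPathConnected (Metric.sphere (0 : E4) 1) := by
    apply isPathConnected_sphere
    · rw [← Module.finrank_eq_rank, finrank_euclideanSpace_fin]
      norm_num
    · norm_num
  have h1 : PathConnectedSpace S3 := isPathConnected_iff_pathConnectedSpace.1 h0
  exact h1.joined x y

theorem free_S3 {κ κ' : ℝ × ℂ → S3} (hκ : Thick κ) (hκ' : Thick κ') : FreeHomotopic κ κ' := by
  obtain ⟨ρ⟩ := kns_path (κ (0, 0)) (κ' (0, 0))
  exact kns_trans (kns_null hκ) (kns_trans (kns_const ρ) (kns_symm (kns_null hκ')))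

theorem knot_S3 {κ : ℝ × ℂ → S3} (hκ : Thick κ) {a₁ b₁ a₂ b₂ : ℤ} (n : ℤ) (hU : Uni a₁ b₁ a₂ b₂) :
    Nonempty (TwinData κ a₁ b₁ a₂ b₂ n S4) := by
  have h : NHS.Rel n univ NHS.unknot ⟨S3, κ, hκ⟩ :=
    Relation.EqvGen.rel _ _ (NHS.Step.hom NHS.unknot κ hκ (free_S3 (std_thick 0) hκ))
  exact (NHS.recognition h).2 a₁ b₁ a₂ b₂ hU

end Pool.Agent.LNS
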