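import Pool.Agent.LNS.SpC
import Pool.Agent.LKT.TwS
import Pool.Agent.ACB.ExS

/-!
# LNS/SpE: a spin component is a surgery on a circle   (difficulty 2)

PROOF.  `spT_thick`, so the family over `Unit` is a link of tori (`LKF.LinkT (𝓡 4)`); `LKT.twm_of_surg` (`J = 𝓡 4`, `ι = Unit`) gives the thick circle `γ ()` of radius `1/4`, which is
`ACB.Thick` (the same fields); `ACB.exists_surg` gives `V` and `S : ACB.Surg (fun _ : Unit => γ ()) (1/4) V`, which is `LKT.SurgJ (𝓡 4) γ (1/4) V` (the same fields); so there is a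
`TwMF`, and `comp_spin` gives the twin data.  `Std (r + 1) ⟨V⟩` by definition (`ACB.IsSurg`: radius `1/4`, `Tubes`: one circle).  Compare `LKS/StdS.lean`, `stdU`.
-/

open scoped Manifold ContDiff Topology
open Set Filter
open Pool.Agent.RSG
open Pool.Agent.NHS (Uni)
open Pool.Agent.LKZ (ThickL OnLink TwinL)
open Pool.Agent.LKB (Mf Std)

namespace Pool.Agent.LNS

theorem add_spin {N : Type*} [TopologicalSpace N] [ChartedSpace E3 N] {ι : Type*} {κ : ι → ℝ × ℂ → N}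
    {a₁ b₁ a₂ b₂ n : ι → ℤ} {i₀ : ι} (hκ : ThickL κ) (hU : ∀ i, Uni (a₁ i) (b₁ i) (a₂ i) (b₂ i)) {j : ℤ} (h1 : a₁ i₀ = 0)
    (h2 : b₁ i₀ = 1) (h3 : a₂ i₀ = 1) (h4 : b₂ i₀ = -j) {r : ℕ} {M : Mf} (hM : Std r M)
    (D₀ : Nonempty (TwinL (fun i : {i // i ≠ i₀} => κ i) (fun i => a₁ i) (fun i => b₁ i) (fun i => a₂ i) (fun i => b₂ i)
      (fun i => n i) M.X)) :
    ∃ M' : Mf, Std (r + 1) M' ∧ Nonempty (TwinL κ a₁ b₁ a₂ b₂ n M'.X) := by
  obtain ⟨D⟩ := D₀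
  have hT : RBM.ThickT (𝓡 4) (spT κ i₀ (n i₀) j D.A) := spT_thick hκ D j
  have hL : LKF.LinkT (𝓡 4) (fun _ : Unit => spT κ i₀ (n i₀) j D.A) :=
    ⟨fun _ => hT, fun _ _ _ _ _ _ _ _ _ _ _ => rfl⟩
  obtain ⟨γ, hγ, -, -, hX⟩ := LKT.twm_of_surg hL
  have hg : (fun _ : Unit => γ ()) = γ := by
    funext i
    rfl
  have hA : ACB.Thick (γ ()) (1 / 4) :=
    ⟨(hγ.thick ()).pos, (hγ.thick ()).per, (hγ.thick ()).loc, (hγ.thick ()).inj⟩
  obtain ⟨V, i1, i2, i3, i4, ⟨S⟩⟩ := ACB.exists_surg hA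
  have S' : LKT.SurgJ (𝓡 4) γ (1 / 4) V :=
    { A := S.A
      Q := S.Q
      A_loc := S.A_loc
      A_inj := S.A_inj
      Q_loc := S.Q_loc
      glue := S.glue
      Q_inj := S.Q_inj
      disj := S.disj
      cover := S.cover }
  obtain ⟨D₁, -⟩ := hX V S'
  refine ⟨⟨V⟩, ⟨M, hM, γ (), 1 / 4, ⟨fun _ => hA, fun i j hij => absurd (Subsingleton.elim i j) hij⟩, ⟨S⟩⟩, ?_⟩
  exact comp_spin hκ hU h1 h2 h3 h4 D D₁

end Pool.Agent.LNS
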