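import Pool.Agent.LNS.RdL
import Pool.Agent.LNS.SpE
import Pool.Agent.LNS.DcL
import Pool.Agent.LNS.KnS
import Pool.Agent.LNS.ClG

/-!
# LNS/ClS: links in the 3-sphere, all unimodular matrices   (difficulty 2)

PROOF.  Induction on `r` (for all `ι`, `S`, `n`).  `r = 0`: `ι` has one element, `M = ⟨S4⟩`, `dic_one`, `knot_S3` (`hS.link.thick`, `hS.uni`).
`r + 1`: `redL` gives `S'` in normal form, it is enough to treat `S'`.  If all matrices are `(1, 1, 1, 0)`: `gluck_S3` (and `funext`).  Otherwise there is `i₀` with matrix `(0, 1, 1, -j)`,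
`j = 0` or `1`: the family over `{i // i ≠ i₀}` (card `r + 1`) is `OkS`, by induction it has `M₀` with `Std r M₀`; `add_spin`.
-/

open scoped Manifold ContDiff Topology
open Set Filter
open Pool.Agent.RSG
open Pool.Agent.NHS (Uni)
open Pool.Agent.LKZ (ThickL OnLink TwinL)
open Pool.Agent.LKB (Mf Std)

namespace Pool.Agent.LNS

theorem classical_S {ι : Type} [Finite ι] {r : ℕ} (hk : Nat.card ι = r + 1) {S : ι → Cmp S3} (hS : OkS S) (n : ι → ℤ) :
    ∃ M : Mf, Std r M ∧ TS S n M.X := by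
  classical
  induction r generalizing ι with
  | zero =>
    have hss : Subsingleton ι := (Nat.card_eq_one_iff_unique.1 hk).1
    obtain ⟨i₀⟩ : Nonempty ι := (Nat.card_eq_one_iff_unique.1 hk).2
    exact ⟨⟨S4⟩, ⟨Diffeomorph.refl _ _ _⟩, (dic_one i₀).2 (knot_S3 (hS.link.thick i₀) (n i₀) (hS.uni i₀))⟩
  | succ r ih =>
    obtain ⟨S', hS', -, hn, hred⟩ := redL hS
    suffices h : ∃ M : Mf, Std (r + 1) M ∧ TS S' n M.X by
      obtain ⟨M, hM, hT⟩ := h
      exact ⟨M, hM, hred hT⟩
    by_cases hall : ∀ i, (S' i).2 = (1, 1, 1, 0)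
    · obtain ⟨M, hM, hT⟩ := gluck_S3 hk hS'.link n
      refine ⟨M, hM, ?_⟩
      have e1 : (fun i => (S' i).2.1) = fun _ => 1 := by funext i; rw [hall i]
      have e2 : (fun i => (S' i).2.2.1) = fun _ => 1 := by funext i; rw [hall i]
      have e3 : (fun i => (S' i).2.2.2.1) = fun _ => 1 := by funext i; rw [hall i]
      have e4 : (fun i => (S' i).2.2.2.2) = fun _ => 0 := by funext i; rw [hall i]
      show Nonempty (TwinL (fun i => (S' i).1) (fun i => (S' i).2.1) (fun i => (S' i).2.2.1) (fun i => (S' i).2.2.2.1)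
        (fun i => (S' i).2.2.2.2) n M.X)
      rw [e1, e2, e3, e4]
      exact hT
    · push Not at hall
      obtain ⟨i₀, hi⟩ := hall
      obtain ⟨j, hj⟩ : ∃ j : ℤ, (S' i₀).2 = (0, 1, 1, -j) := by
        rcases hn i₀ with h | h | h
        · exact absurd h hi
        · exact ⟨0, by rw [h]; rfl⟩
        · exact ⟨1, by rw [h]⟩
      have hk' : Nat.card {i : ι // i ≠ i₀} = r + 1 := by
        have h1 : Nat.card {i : ι // i = i₀} = 1 := Nat.card_unique
        have h2 := Nat.card_congr (Equiv.sumCompl fun i : ι => i = i₀)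
        rw [Nat.card_sum, h1, hk] at h2
        have h3 : Nat.card {i : ι // ¬ i = i₀} = r + 1 := by omega
        exact h3
      have hS0 : OkS fun i : {i : ι // i ≠ i₀} => S' i := by
        refine ⟨⟨fun i => hS'.link.thick i, fun i i' l v l' v' hv hv' he => ?_⟩, fun i => hS'.uni i⟩
        exact Subtype.ext (hS'.link.disj _ _ _ _ _ _ hv hv' he)
      obtain ⟨M, hM, hT⟩ := ih hk' hS0 fun i => n i
      exact add_spin hS'.link hS'.uni (by rw [hj]) (by rw [hj]) (by rw [hj]) (by rw [hj]) hM hT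

end Pool.Agent.LNS
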