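import Pool.Agent.LNS.UnL
import Pool.Agent.NHS.Shr

/-!
# LNS/ShL: the shear for links   (difficulty 3)

PROOF.  Adapt `NHS/Shr.lean` (`NHS.shear` is the case of one component with `φ` of degree `1`).  For `x` off `κ` let `G x` be the point off `κ'` with `F (G x) = x`;
`G` is a local diffeomorphism.  New data: `Q` the same, `A₁ (x, t) = D.A (G x, t - θ (φ x))`, `θ u = arg u / 2π` (any choice `θ'` with `ex θ' = φ x` gives the same point, because
`D.A` has period `1`; locally choose a smooth branch: `NHS.shr_branch`).  (In `NHS/Shr.lean` there is a factor `k` at `θ`; here it is `1`.)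
`glue` at the component `i`: phases `(a₁ i - k i b₁ i) m + b₁ i t`, `(a₂ i - k i b₂ i) m + b₂ i t`, `l - n i t` of `z`: `φ (κ i (l, r ex m)) = ex (k i m)`, so
`A₁ (κ i (l, r ex m), t) = D.A (G (κ i (l, r ex m)), t - k i m)`, `G (κ i (l, r ex m)) = κ' i (l - k i n i m, r ex m)` (`hF.near`), and `D.glue i z (l - k i n i m) m (t - k i m)` gives
`D.Q i z = D.A (κ' i (l - k i n i m, r ex m), t - k i m)`.  `disj`, `cover`: from those of `D`.
-/

open scoped Manifold ContDiff Topology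
open Set Filter
open Complex (I)
open Pool.Agent.RSG
open Pool.Agent.NHS (Uni GcR)
open Pool.Agent.LKZ (ThickL OnLink TwinL)

namespace Pool.Agent.LNS

/-- the inverse of the diffeomorphism of the complements -/
theorem shl_G {N : Type*} [TopologicalSpace N] [ChartedSpace E3 N] {N' : Type*} [TopologicalSpace N']
    [ChartedSpace E3 N'] [T2Space N'] {ι : Type*} [Finite ι] {κ : ι → ℝ × ℂ → N} {κ' : ι → ℝ × ℂ → N'}
    (hκ' : ThickL κ') {q : ι → ℤ} {F : N' → N} (hF : DualL q κ κ' F) :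
    ∃ G : N → N', (∀ x, ¬ OnLink κ x → ¬ OnLink κ' (G x) ∧ F (G x) = x) ∧
      (∀ x, ¬ OnLink κ' x → G (F x) = x) ∧ ∀ x, ¬ OnLink κ x → IsLocalDiffeomorphAt (𝓡 3) (𝓡 3) ∞ G x := by
  classical
  by_cases hne : Nonempty N'
  · obtain ⟨y0⟩ := hne
    have h0 : ∀ x, ∃ y : N', ¬ OnLink κ x → ¬ OnLink κ' y ∧ F y = x := by
      intro x
      by_cases hx : OnLink κ x
      · exact ⟨y0, fun h => absurd hx h⟩
      · obtain ⟨y, hy⟩ := hF.surj x hx
        exact ⟨y, fun _ => hy⟩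
    choose G hG using h0
    have hGF : ∀ x, ¬ OnLink κ' x → G (F x) = x := by
      intro x hx
      have h1 := hG (F x) (hF.off x hx)
      exact hF.inj _ _ h1.1 hx h1.2
    refine ⟨G, hG, hGF, ?_⟩
    intro x hx
    obtain ⟨h1, h2⟩ := hG x hx
    have h3 := hF.loc (G x) h1
    have h4 : IsLocalDiffeomorphAt (𝓡 3) (𝓡 3) ∞ G (F (G x)) := by
      refine CSG.ld_of_comp_left (f := F) ?_ h3
      refine CSG.ld_congr (CSG.ld_id (G x)) ?_
      have h5 : ∀ᶠ y in 𝓝 (G x), y ∈ {x | OnLink κ' x}ᶜ :=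
        (onL_closed hκ').isOpen_compl.mem_nhds h1
      filter_upwards [h5] with y hy
      exact hGF y hy
    rwa [h2] at h4
  · have hon : ∀ x : N, OnLink κ x := by
      intro x
      by_contra hx
      obtain ⟨y, _⟩ := hF.surj x hx
      exact hne ⟨y⟩
    rcases isEmpty_or_nonempty N with hN | ⟨⟨x0⟩⟩
    · exact ⟨fun x => (hN.false x).elim, fun x => (hN.false x).elim, fun x _ => (hne ⟨x⟩).elim,
        fun x => (hN.false x).elim⟩
    · obtain ⟨i, _⟩ := hon x0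
      exact (hne ⟨κ' i (0, 0)⟩).elim

theorem shearL {N : Type*} [TopologicalSpace N] [ChartedSpace E3 N] [T2Space N] {N' : Type*} [TopologicalSpace N']
    [ChartedSpace E3 N'] [T2Space N'] {ι : Type*} [Finite ι] {κ : ι → ℝ × ℂ → N} {κ' : ι → ℝ × ℂ → N'} (hκ : ThickL κ)
    (hκ' : ThickL κ') {k n : ι → ℤ} {φ : N → ℂ} (hφ : SeifL κ k φ) {F : N' → N} (hF : DualL (fun i => k i * n i) κ κ' F)
    {a₁ b₁ a₂ b₂ : ι → ℤ} {X : Type*} [TopologicalSpace X] [ChartedSpace E4 X] (D : TwinL κ' a₁ b₁ a₂ b₂ n X) :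
    Nonempty (TwinL κ (fun i => a₁ i - k i * b₁ i) b₁ (fun i => a₂ i - k i * b₂ i) b₂ n X) := by
  classical
  obtain ⟨G, hG, hGF, hGl⟩ := shl_G hκ' hF
  let θ : ℂ → ℝ := fun u => Complex.arg u / (2 * Real.pi)
  have hθ : ∀ u : ℂ, ‖u‖ = 1 → ex (θ u) = u := fun u hu => NHS.shr_ex_arg hu
  have hAint : ∀ (x : N') (t : ℝ) (m : ℤ), D.A (x, t + m) = D.A (x, t) := fun x t m =>
    NHS.shr_per (f := fun s => D.A (x, s)) (fun s => D.A_per _ _) t m
  have hAk : ∀ (x : N') (t s s' : ℝ), ex s = ex s' → D.A (x, t - s) = D.A (x, t - s') := by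
    intro x t s s' h
    obtain ⟨m, hm⟩ := ex_eq_iff.1 h
    have h1 : t - s = t - s' + ((m : ℤ) : ℝ) := by
      rw [hm]
      ring
    rw [h1, hAint]
  refine ⟨{ A := fun q => D.A (G q.1, q.2 - θ (φ q.1)), Q := D.Q, A_per := ?_, A_loc := ?_, A_inj := ?_,
            Q_loc := D.Q_loc, Q_inj := D.Q_inj, glue := ?_, disj := ?_, cover := ?_ }⟩
  · intro x t
    change D.A (G x, t + 1 - θ (φ x)) = D.A (G x, t - θ (φ x))
    rw [add_sub_right_comm, D.A_per]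
  · intro x t hx
    have hO : IsOpen {x | OnLink κ x}ᶜ := (onL_closed hκ).isOpen_compl
    obtain ⟨θ', h1, h2⟩ := NHS.shr_branch hO hφ.smooth hφ.norm hx
    have h3 : IsLocalDiffeomorphAt ((𝓡 3).prod 𝓘(ℝ, ℝ)) ((𝓡 3).prod 𝓘(ℝ, ℝ)) ∞ (Prod.map G (id : ℝ → ℝ))
        (x, t - (1 : ℝ) * θ' x) := ld_prodMap (hGl x hx) (CSG.ld_id _)
    have h4 := NHS.shr_sig h1 (1 : ℝ) t
    have h5 := IsLocalDiffeomorphAt.comp (hf := h4) (g := Prod.map G (id : ℝ → ℝ)) (hg := h3)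
    have h6 := IsLocalDiffeomorphAt.comp (hf := h5) (g := D.A) (hg := D.A_loc (G x) (t - (1 : ℝ) * θ' x) (hG x hx).1)
    refine CSG.ld_congr h6 ?_
    have h7 : ∀ᶠ q in 𝓝 (x, t), ex (θ' q.1) = φ q.1 := (continuous_fst.tendsto (x, t)).eventually h2
    have h8 : ∀ᶠ q in 𝓝 (x, t), q.1 ∈ {x | OnLink κ x}ᶜ :=
      (continuous_fst.tendsto (x, t)).eventually (hO.mem_nhds hx)
    filter_upwards [h7, h8] with q hq hq'
    change D.A (G q.1, q.2 - θ (φ q.1)) = D.A (G q.1, q.2 - (1 : ℝ) * θ' q.1)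
    rw [one_mul]
    apply hAk
    rw [hq, hθ _ (hφ.norm _ hq')]
  · intro x x' t t' hx hx' h
    obtain ⟨h1, m, hm⟩ := D.A_inj _ _ _ _ (hG x hx).1 (hG x' hx').1 h
    have h2 : x = x' := by
      rw [← (hG x hx).2, ← (hG x' hx').2, h1]
    subst h2
    exact ⟨rfl, m, by linarith⟩
  · intro i z l m t hf h1 h2 e1 e2 e3
    have p1 : 0 < ‖c1 z‖ := norm_pos_iff.2 h1
    have p2 : 0 < ‖c2 z‖ := norm_pos_iff.2 h2
    have p3 : 0 < ‖fh z‖ := norm_pos_iff.2 hf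
    have r0 : 0 < 2 * ‖c1 z‖ * ‖c2 z‖ := by positivity
    have r1 : 2 * ‖c1 z‖ * ‖c2 z‖ < 1 := by
      have h3 := fh_sq z
      have h4 : 0 < ‖fh z‖ ^ 2 := by positivity
      nlinarith
    have g := D.glue i z (l - ((k i * n i : ℤ) : ℝ) * m) m (t - k i * m) hf h1 h2
      (by
        rw [show (a₁ i : ℝ) * m + b₁ i * (t - k i * m) = ((a₁ i - k i * b₁ i : ℤ) : ℝ) * m + b₁ i * t by push_cast; ring]
        exact e1)
      (by
        rw [show (a₂ i : ℝ) * m + b₂ i * (t - k i * m) = ((a₂ i - k i * b₂ i : ℤ) : ℝ) * m + b₂ i * t by push_cast; ring]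
        exact e2)
      (by
        rw [show l - ((k i * n i : ℤ) : ℝ) * m - n i * (t - k i * m) = l - n i * t by push_cast; ring]
        exact e3)
    rw [g]
    have hv : ((2 * ‖c1 z‖ * ‖c2 z‖ : ℝ) : ℂ) * ex m ≠ 0 :=
      mul_ne_zero (by exact_mod_cast r0.ne') (ex_ne m)
    have hvn : ‖((2 * ‖c1 z‖ * ‖c2 z‖ : ℝ) : ℂ) * ex m‖ < 1 := by
      rw [norm_mul, ex_norm, mul_one, Complex.norm_real, Real.norm_of_nonneg r0.le]
      exact r1
    have hoff : ¬ OnLink κ' (κ' i (l - ((k i * n i : ℤ) : ℝ) * m, ((2 * ‖c1 z‖ * ‖c2 z‖ : ℝ) : ℂ) * ex m)) :=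
      notOn hκ' i hv hvn
    have hF1 := hF.near i (l - ((k i * n i : ℤ) : ℝ) * m) m (2 * ‖c1 z‖ * ‖c2 z‖) r0 r1
    rw [sub_add_cancel] at hF1
    have hG1 : G (κ i (l, ((2 * ‖c1 z‖ * ‖c2 z‖ : ℝ) : ℂ) * ex m)) =
        κ' i (l - ((k i * n i : ℤ) : ℝ) * m, ((2 * ‖c1 z‖ * ‖c2 z‖ : ℝ) : ℂ) * ex m) := by
      rw [← hF1, hGF _ hoff]
    change D.A (κ' i (l - ((k i * n i : ℤ) : ℝ) * m, ((2 * ‖c1 z‖ * ‖c2 z‖ : ℝ) : ℂ) * ex m), t - k i * m) =
      D.A (G (κ i (l, ((2 * ‖c1 z‖ * ‖c2 z‖ : ℝ) : ℂ) * ex m)),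
        t - θ (φ (κ i (l, ((2 * ‖c1 z‖ * ‖c2 z‖ : ℝ) : ℂ) * ex m))))
    rw [hG1, hφ.near i l m _ r0 r1]
    apply hAk
    rw [hθ _ (ex_norm _)]
  · intro i z x t hf h1 hx
    exact D.disj i z _ _ hf h1 (hG x hx).1
  · intro q
    rcases D.cover q with ⟨x, t, hx, rfl⟩ | ⟨i, z, hz, rfl⟩
    · left
      refine ⟨F x, t + θ (φ (F x)), hF.off x hx, ?_⟩
      change D.A (x, t) = D.A (G (F x), t + θ (φ (F x)) - θ (φ (F x)))
      rw [hGF x hx, add_sub_cancel_right]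
    · exact Or.inr ⟨i, z, hz, rfl⟩

end Pool.Agent.LNS
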