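import Pool.Agent.LNS.UnL
import Pool.Agent.NHS.Rel

/-!
# LNS/SyL: the inverse surgery of a link   (difficulty 2)

PROOFS.  Adapt `dual_symm`, `seif_dual` of `NHS/Rel.lean` (one component).  `G y` is the point off `κ'` with `F (G y) = y`; local diffeomorphism: `G ∘ F = id` near, `CSG.ld_of_comp_left`;
the complement of the link is open (`onL_closed`); the points `κ' i (l, r ex m)` are off the link: `notOn`.
-/

open scoped Manifold ContDiff Topology
open Set Filter
open Pool.Agent.RSG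
open Pool.Agent.LKZ (ThickL OnLink TwinL)

namespace Pool.Agent.LNS

variable {N : Type} [TopologicalSpace N] [ChartedSpace E3 N] {N' : Type} [TopologicalSpace N'] [ChartedSpace E3 N']
  {ι : Type} {κ : ι → ℝ × ℂ → N} {κ' : ι → ℝ × ℂ → N'} {q k : ι → ℤ} {F : N' → N}

theorem SyL_off (hκ : ThickL κ) (i : ι) {l m r : ℝ} (h0 : 0 < r) (h1 : r < 1) : ¬ OnLink κ (κ i (l, r * ex m)) := by
  have hn : ‖(r : ℂ) * ex m‖ = r := by
    rw [norm_mul, ex_norm, mul_one, Complex.norm_real, Real.norm_of_nonneg h0.le]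
  refine notOn hκ i ?_ (by rw [hn]; exact h1)
  intro h
  rw [h, norm_zero] at hn
  exact h0.ne hn

theorem dualL_symm [Finite ι] [Nonempty ι] [T2Space N] [T2Space N'] (hκ : ThickL κ) (hκ' : ThickL κ')
    (hF : DualL q κ κ' F) :
    ∃ G : N → N', (∀ x, ¬ OnLink κ' x → G (F x) = x) ∧ DualL (fun i => -q i) κ' κ G := by
  classical
  have i0 : ι := Classical.arbitrary ι
  let G : N → N' := fun y => if h : ¬ OnLink κ y then (hF.surj y h).choose else κ' i0 (0, 0)
  have hG : ∀ y, ¬ OnLink κ y → ¬ OnLink κ' (G y) ∧ F (G y) = y := by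
    intro y hy
    have e : G y = (hF.surj y hy).choose := dif_pos hy
    rw [e]
    exact (hF.surj y hy).choose_spec
  have hGF : ∀ x, ¬ OnLink κ' x → G (F x) = x := by
    intro x hx
    have h1 := hG (F x) (hF.off x hx)
    exact hF.inj _ _ h1.1 hx h1.2
  have hop : IsOpen {x : N' | ¬ OnLink κ' x} := (onL_closed hκ').isOpen_compl
  refine ⟨G, hGF, ?_⟩
  refine { off := fun y hy => (hG y hy).1, loc := ?_, inj := ?_, surj := ?_, near := ?_ }
  · intro y hy
    obtain ⟨h1, h2⟩ := hG y hy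
    have h3 : IsLocalDiffeomorphAt (𝓡 3) (𝓡 3) ∞ (G ∘ F) (G y) := by
      refine CSG.ld_congr (f := id) ?_ ?_
      · exact (Diffeomorph.refl (𝓡 3) N' ∞).isLocalDiffeomorph _
      · filter_upwards [hop.mem_nhds h1] with x hx
        exact hGF x hx
    have h4 := CSG.ld_of_comp_left h3 (hF.loc _ h1)
    rw [h2] at h4
    exact h4
  · intro y y' hy hy' he
    rw [← (hG y hy).2, he, (hG y' hy').2]
  · intro x hx
    exact ⟨F x, hF.off x hx, hGF x hx⟩
  · intro i l m r h0 h1
    have h2 : ¬ OnLink κ' (κ' i (l + (-q i : ℤ) * m, r * ex m)) := SyL_off hκ' i h0 h1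
    rw [← hGF _ h2, hF.near i _ m r h0 h1]
    congr 2
    push_cast
    ring_nf

theorem seifL_dual (hκ' : ThickL κ') {φ : N → ℂ} (hφ : SeifL κ k φ) (hF : DualL q κ κ' F) : SeifL κ' k (φ ∘ F) := by
  refine ⟨fun x hx => ?_, fun x hx => hφ.norm _ (hF.off x hx), fun i l m r h0 h1 => ?_⟩
  · exact (hφ.smooth _ (hF.off x hx)).comp x (hF.loc x hx).contMDiffAt
  · show φ (F _) = _
    rw [hF.near i l m r h0 h1, hφ.near i _ m r h0 h1]

end Pool.Agent.LNS
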