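import Pool.Agent.LNS.ClS
import Pool.Agent.LNS.ShL
import Pool.Agent.LNS.SyL
import Pool.Agent.LKZ.Glk
import Pool.Agent.LKB.Fin

/-!
# LNS/Main: all twin manifolds of the links related to links of the 3-sphere (assembly)
-/

open scoped Manifold ContDiff Topology
open Set Filter
open Pool.Agent.RSG
open Pool.Agent.NHS (Uni Good Car Knot3 Rel existsR uniqR)
open Pool.Agent.NHT (FreeHomotopic GenH1)
open Pool.Agent.LKZ (ThickL OnLink TwinL RollSpinL GluckTwistL gluck_spinL)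
open Pool.Agent.LKB (Mf BSum Std)

namespace Pool.Agent.LNS

universe u v

variable {r : ℕ}

instance : Subsingleton (Fin (0 + 1)) := inferInstanceAs (Subsingleton (Fin 1))

theorem onL_open {K : Link3 r} : IsOpen {x : K.N | ¬ OnLink K.κ x} := (onL_closed K.thick).isOpen_compl

/-- the symmetric generators -/
theorem stepL_symm {n : Fin (r + 1) → ℤ} {K K' : Link3 r} (h : StepL n K K') : StepL n K' K := by
  cases h with
  | hom κ' h' hr hF => exact StepL.hom ⟨K.N, κ', h'⟩ K.κ K.thick hr (NHS.free_symm hF)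
  | surg _ k φ F hφ hF =>
    obtain ⟨G, _, hG⟩ := dualL_symm K.thick K'.thick hF
    have h1 := seifL_dual K'.thick hφ hF
    have h2 : SeifL K'.κ (fun i => -k i) (fun x => (starRingEnd ℂ) ((φ ∘ F) x)) := by
      refine ⟨fun x hx => ?_, fun x hx => ?_, fun i l m r h0 h1' => ?_⟩
      · exact NHJ.conj_sm (h1.smooth x hx)
      · rw [RCLike.norm_conj]
        exact h1.norm x hx
      · rw [h1.near i l m r h0 h1', ← ex_neg]
        congr 1
        push_cast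
        ring
    refine StepL.surg K' K (fun i => -k i) _ G h2 ?_
    have e : (fun i => -(k i * n i)) = fun i => -k i * n i := by
      funext i
      ring
    rw [← e]
    exact hG

/-- induction for the relation -/
theorem RelL.mp {n : Fin (r + 1) → ℤ} {Pr : Link3 r → Prop} (h : ∀ K K', StepL n K K' → Pr K → Pr K') {K K' : Link3 r}
    (hR : RelL n K K') : Pr K → Pr K' := by
  have key : ∀ {K K'}, Relation.EqvGen (StepL n) K K' → (Pr K ↔ Pr K') := by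
    intro K K' hR
    induction hR with
    | rel K K' hs => exact ⟨h K K' hs, h K' K (stepL_symm hs)⟩
    | refl K => exact Iff.rfl
    | symm K K' _ ih => exact ih.symm
    | trans K K' K'' _ _ ih ih' => exact ih.trans ih'
  exact (key hR).1

/-- the property carried by the induction -/
def CarL (n : Fin (r + 1) → ℤ) (K : Link3 r) : Prop :=
  (r = 0 → GenH1 (K.κ 0)) ∧ ∀ a₁ b₁ a₂ b₂ : Fin (r + 1) → ℤ, (∀ i, Uni (a₁ i) (b₁ i) (a₂ i) (b₂ i)) →
    ∃ M : Mf, BSum r M ∧ Nonempty (TwinL K.κ a₁ b₁ a₂ b₂ n M.X)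

theorem carL_base {n : Fin (r + 1) → ℤ} {κ : Fin (r + 1) → ℝ × ℂ → S3} (hκ : ThickL κ) : CarL n ⟨S3, κ, hκ⟩ := by
  refine ⟨fun _ => NHS.genH1_S3 _, fun a₁ b₁ a₂ b₂ hU => ?_⟩
  obtain ⟨M, hM, hT⟩ := classical_S (ι := Fin (r + 1)) (r := r) (by simp) (S := fun i => (κ i, a₁ i, b₁ i, a₂ i, b₂ i))
    ⟨hκ, hU⟩ n
  exact ⟨M, LKB.std_bsum r M hM, hT⟩

theorem carL_hom {n : Fin (0 + 1) → ℤ} {K : Link3 0} (hC : CarL n K) {κ' : Fin (0 + 1) → ℝ × ℂ → K.N} (hκ' : ThickL κ')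
    (hF : FreeHomotopic (K.κ 0) (κ' 0)) : CarL n ⟨K.N, κ', hκ'⟩ := by
  have hc : Car (n 0) (⟨K.N, K.κ 0, K.thick.thick 0⟩ : Knot3) := by
    refine ⟨hC.1 rfl, ?_⟩
    have key : ∀ a₁ b₁ a₂ b₂ : ℤ, Uni a₁ b₁ a₂ b₂ → ∀ (X : Type) [TopologicalSpace X] [ChartedSpace E4 X] [T2Space X],
        Nonempty (TwinData (K.κ 0) a₁ b₁ a₂ b₂ (n 0) X) → NHS.IsS4 X := by
      intro a₁ b₁ a₂ b₂ hU X _ _ _ hX
      obtain ⟨M, ⟨hM⟩, hT⟩ := hC.2 (fun _ => a₁) (fun _ => b₁) (fun _ => a₂) (fun _ => b₂) fun _ => hU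
      obtain ⟨D⟩ := hX
      obtain ⟨D'⟩ := (dic_one (0 : Fin (0 + 1))).1 hT
      obtain ⟨G⟩ := uniqR (K.thick.thick 0) hU D D'
      exact ⟨G.trans hM⟩
    intro X _ _ _
    exact ⟨fun h => key _ _ _ _ (Or.inr (by norm_num)) X h, fun j h => key _ _ _ _ (Or.inr (by ring)) X h⟩
  have hc' := hc.hom (hκ'.thick 0) hF
  refine ⟨fun _ => hc'.1, fun a₁ b₁ a₂ b₂ hU => ?_⟩
  obtain ⟨X, _, _, _, _, ⟨D⟩⟩ := existsR (hκ'.thick 0) (n 0) (hU 0)
  obtain ⟨G⟩ := hc'.all _ _ _ _ (hU 0) X ⟨D⟩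
  exact ⟨⟨X⟩, ⟨G⟩, (dic_one (0 : Fin (0 + 1))).2 ⟨D⟩⟩

theorem carL_step {n : Fin (r + 1) → ℤ} {K K' : Link3 r} (hs : StepL n K K') (hC : CarL n K) : CarL n K' := by
  have hs' := stepL_symm hs
  cases hs with
  | hom κ' h' hr hF =>
    subst hr
    exact carL_hom hC h' hF
  | surg _ k φ F hφ hF =>
    refine ⟨?_, ?_⟩
    · intro hr
      subst hr
      exact NHS.genH1_dual (K.thick.thick 0) (K'.thick.thick 0) (dual_one (0 : Fin (0 + 1)) hF) (hC.1 rfl)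
    · obtain ⟨G, _, hG⟩ := dualL_symm K.thick K'.thick hF
      have hφ' : SeifL K'.κ (fun i => -k i) (fun x => (starRingEnd ℂ) ((φ ∘ F) x)) := by
        have h1 := seifL_dual K'.thick hφ hF
        refine ⟨fun x hx => ?_, fun x hx => ?_, fun i l m r h0 h1' => ?_⟩
        · exact NHJ.conj_sm (h1.smooth x hx)
        · rw [RCLike.norm_conj]
          exact h1.norm x hx
        · rw [h1.near i l m r h0 h1', ← ex_neg]
          congr 1
          push_cast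
          ring
      have e : (fun i => -(k i * n i)) = fun i => -k i * n i := by
        funext i
        ring
      rw [e] at hG
      intro a₁ b₁ a₂ b₂ hU
      -- the twin manifold of `K` with the matrix `a - k b`
      obtain ⟨M, hM, ⟨D⟩⟩ := hC.2 (fun i => a₁ i - k i * b₁ i) b₁ (fun i => a₂ i - k i * b₂ i) b₂ (fun i => by
        have h := hU i
        unfold Uni at h ⊢
        have e2 : (a₁ i - k i * b₁ i) * b₂ i - (a₂ i - k i * b₂ i) * b₁ i = a₁ i * b₂ i - a₂ i * b₁ i := by ring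
        rw [e2]
        exact h)
      obtain ⟨D'⟩ := shearL K'.thick K.thick hφ' hG D
      refine ⟨M, hM, ?_⟩
      have e1 : (fun i => a₁ i - k i * b₁ i - -k i * b₁ i) = a₁ := by
        funext i
        ring
      have e2 : (fun i => a₂ i - k i * b₂ i - -k i * b₂ i) = a₂ := by
        funext i
        ring
      have D'' : Nonempty (TwinL K'.κ (fun i => a₁ i - k i * b₁ i - -k i * b₁ i) b₁
        (fun i => a₂ i - k i * b₂ i - -k i * b₂ i) b₂ n M.X) := ⟨D'⟩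
      rw [e1, e2] at D''
      exact D''

/-- **The recognition theorem for links.** -/
theorem recognitionL {n : Fin (r + 1) → ℤ} {κ₀ : Fin (r + 1) → ℝ × ℂ → S3} (h₀ : ThickL κ₀) {K : Link3 r}
    (h : RelL n ⟨S3, κ₀, h₀⟩ K) {a₁ b₁ a₂ b₂ : Fin (r + 1) → ℤ} (hU : ∀ i, Uni (a₁ i) (b₁ i) (a₂ i) (b₂ i)) :
    ∃ M : Mf, BSum r M ∧ Nonempty (TwinL K.κ a₁ b₁ a₂ b₂ n M.X) ∧
      ∀ (X : Type u) [TopologicalSpace X] [ChartedSpace E4 X] [T2Space X],
        Nonempty (TwinL K.κ a₁ b₁ a₂ b₂ n X) → Nonempty (X ≃ₘ⟮𝓡 4, 𝓡 4⟯ M.X) := by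
  obtain ⟨M, hM, ⟨D⟩⟩ := (RelL.mp (fun K K' hs hP => carL_step hs hP) h (carL_base h₀)).2 a₁ b₁ a₂ b₂ hU
  refine ⟨M, hM, ⟨D⟩, fun X _ _ _ hX => ?_⟩
  obtain ⟨D'⟩ := hX
  exact uniqL K.thick hU D' D

end Pool.Agent.LNS
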