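import Pool.Agent.LNS.UnL
import Pool.Agent.NHS.MoR

/-!
# LNS/MoL: change of the gluing of one component by a diffeomorphism `Φ` of the 4-sphere   (difficulty 4)

PROOF.  Adapt `NHS/MoR.lean` (`NHS.modR`: the case of one component).  `Q' i₀ = Q i₀ ∘ Φ`, `Q' i = Q i` for `i ≠ i₀`; `κ' i₀ = κ i₀ (· + s, ·)`, `κ' i = κ i` for `i ≠ i₀`;
`A' (κ' i₀ (l, v), t) = Q' i₀ (GcR' (l, v, t))` for `0 < ‖v‖ < 1` (`GcR'` for the new matrix of `i₀`), `A' (x, t) = A (x, t)` for `x` not in the tube `κ i₀ (ℝ × {‖v‖ < 1})` (which is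
also the tube of `κ' i₀`; the other tubes are disjoint from it, so nothing changes at the other components).  For `7/8 < ‖v‖` the two agree with `A (κ' i₀ (l, v), t)` by `hg`
(`NHS.gcR_spec`), so `A'` is a local diffeomorphism; `NHS.mor_closed`: the tube of radius `7/8` is closed.
-/

open scoped Manifold ContDiff Topology
open Set Filter
open Complex (I)
open Pool.Agent.RSG
open Pool.Agent.NHS (Uni GcR Ph sh)
open Pool.Agent.LKZ (ThickL OnLink TwinL)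

namespace Pool.Agent.LNS

section
variable {N : Type*} [TopologicalSpace N] [ChartedSpace E3 N] {ι : Type*} {S S' : ι → Cmp N}

theorem mol_thick (hS : OkS S) (i₀ : ι) (s : ℝ) (h0 : (S' i₀).1 = fun q => (S i₀).1 (q.1 + s, q.2))
    (h1 : ∀ i, i ≠ i₀ → S' i = S i) : ThickL fun i => (S' i).1 := by
  classical
  have e0 : ∀ l v, (S' i₀).1 (l, v) = (S i₀).1 (l + s, v) := fun l v => by rw [h0]
  constructor
  · intro i
    by_cases hi : i = i₀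
    · subst hi
      show Thick (S' i).1
      rw [h0]
      exact NHS.mor_thick (hS.link.thick i) s
    · show Thick (S' i).1
      rw [h1 i hi]
      exact hS.link.thick i
  · intro i i' l v l' v' hv hv' he
    have he' : (S' i).1 (l, v) = (S' i').1 (l', v') := he
    by_cases hi : i = i₀
    · by_cases hi' : i' = i₀
      · rw [hi, hi']
      · rw [hi, h1 i' hi', e0] at he'
        exact hi.trans (hS.link.disj i₀ i' _ v _ v' hv hv' he')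
    · by_cases hi' : i' = i₀
      · rw [hi', h1 i hi, e0] at he'
        exact (hS.link.disj i i₀ _ v _ v' hv hv' he').trans hi'.symm
      · rw [h1 i hi, h1 i' hi'] at he'
        exact hS.link.disj i i' _ v _ v' hv hv' he'

omit [TopologicalSpace N] [ChartedSpace E3 N] in
theorem mol_on (i₀ : ι) (s : ℝ) (h0 : (S' i₀).1 = fun q => (S i₀).1 (q.1 + s, q.2))
    (h1 : ∀ i, i ≠ i₀ → S' i = S i) (x : N) : OnLink (fun i => (S' i).1) x ↔ OnLink (fun i => (S i).1) x := by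
  classical
  have e0 : ∀ l v, (S' i₀).1 (l, v) = (S i₀).1 (l + s, v) := fun l v => by rw [h0]
  constructor
  · rintro ⟨i, l, h⟩
    have h' : x = (S' i).1 (l, 0) := h
    by_cases hi : i = i₀
    · refine ⟨i₀, l + s, ?_⟩
      show x = (S i₀).1 (l + s, 0)
      rw [h', hi, e0]
    · refine ⟨i, l, ?_⟩
      show x = (S i).1 (l, 0)
      rw [h', h1 i hi]
  · rintro ⟨i, l, h⟩
    have h' : x = (S i).1 (l, 0) := h
    by_cases hi : i = i₀
    · refine ⟨i₀, l - s, ?_⟩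
      show x = (S' i₀).1 (l - s, 0)
      rw [h', hi, e0, sub_add_cancel]
    · refine ⟨i, l, ?_⟩
      show x = (S' i).1 (l, 0)
      rw [h', h1 i hi]

theorem mol_Q_ne_A (hS : OkS S) {n : ι → ℤ} {X : Type*} [TopologicalSpace X] [ChartedSpace E4 X] (D : TwinS S n X) (i : ι)
    {z : S4} (hz : fh z ≠ 0) {x : N} (t : ℝ) (hxT : ¬ OnLink (fun i => (S i).1) x)
    (hx : ∀ l v, ‖v‖ < 1 → x ≠ (S i).1 (l, v)) : D.Q i z ≠ D.A (x, t) := by
  by_cases h12 : c1 z = 0 ∨ c2 z = 0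
  · exact D.disj i z x t hz h12 hxT
  · push Not at h12
    obtain ⟨l, m, t', e1, e2, e3⟩ := NHS.ph_exists (hS.uni i) (n i) z
    rw [D.glue i z l m t' hz h12.1 h12.2 e1 e2 e3]
    intro h
    have hn : ‖((2 * ‖c1 z‖ * ‖c2 z‖ : ℝ) : ℂ) * ex m‖ < 1 := glue_norm hz m
    have hv := NHS.mor_nv h12.1 h12.2 m
    exact hx _ _ hn (D.A_inj _ _ _ _ (notOn hS.link i hv hn) hxT h).1.symm

end

theorem modL {N : Type*} [TopologicalSpace N] [ChartedSpace E3 N] [T2Space N] {ι : Type*} [Finite ι] {S S' : ι → Cmp N}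
    (hS : OkS S) {n : ι → ℤ} {X : Type*} [TopologicalSpace X] [ChartedSpace E4 X] (D : TwinS S n X) (i₀ : ι) (s : ℝ)
    (hU' : UniM (S' i₀).2) (h0 : (S' i₀).1 = fun q => (S i₀).1 (q.1 + s, q.2)) (h1 : ∀ i, i ≠ i₀ → S' i = S i)
    (Φ : Equiv.Perm S4) (hΦ : ∀ z, IsLocalDiffeomorphAt (𝓡 4) (𝓡 4) ∞ Φ z) (hne : ∀ z, fh (Φ z) ≠ 0 ↔ fh z ≠ 0)
    (hg : ∀ (z : S4) (l m t : ℝ), fh z ≠ 0 → 7 / 8 < 2 * ‖c1 z‖ * ‖c2 z‖ →
      Ph (S' i₀).2.1 (S' i₀).2.2.1 (S' i₀).2.2.2.1 (S' i₀).2.2.2.2 (n i₀) z l m t →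
      D.Q i₀ (Φ z) = D.A ((S i₀).1 (l + s, (2 * ‖c1 z‖ * ‖c2 z‖ : ℝ) * ex m), t)) :
    TS S' n X := by
  classical
  set κ₀ : ℝ × ℂ → N := (S' i₀).1 with hκ₀
  set R : Mat := (S' i₀).2 with hR
  have hκ'v : ∀ l v, κ₀ (l, v) = (S i₀).1 (l + s, v) := fun l v => by rw [h0]
  have hL' : ThickL fun i => (S' i).1 := mol_thick hS i₀ s h0 h1
  have hκ' : Thick κ₀ := hL'.thick i₀
  have hK := mol_on (S := S) (S' := S') i₀ s h0 h1
  have hKn : ∀ x, OnKnot κ₀ x → OnLink (fun i => (S' i).1) x := fun x h => ⟨i₀, h⟩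
  -- the tubes of the other components
  have hoth : ∀ i, i ≠ i₀ → ∀ l v q, ‖v‖ < 1 → ‖(q : ℝ × ℂ).2‖ < 1 → (S' i).1 (l, v) ≠ κ₀ q := by
    rintro i hi l v ⟨l', v'⟩ hv hq he
    exact hi (hL'.disj i i₀ l v l' v' hv hq he)
  -- the new map A
  let In : N → Prop := fun x => ∃ q : ℝ × ℂ, q.2 ≠ 0 ∧ ‖q.2‖ < 1 ∧ x = κ₀ q
  let A' : N × ℝ → X := fun p => if h : In p.1 then
      D.Q i₀ (Φ (GcR R.1 R.2.1 R.2.2.1 R.2.2.2 (n i₀) (h.choose.1, h.choose.2, p.2))) else D.A p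
  have hA1 : ∀ l v t, v ≠ 0 → ‖v‖ < 1 →
      A' (κ₀ (l, v), t) = D.Q i₀ (Φ (GcR R.1 R.2.1 R.2.2.1 R.2.2.2 (n i₀) (l, v, t))) := by
    intro l v t hv hv1
    have h : In (κ₀ (l, v)) := ⟨(l, v), hv, hv1, rfl⟩
    have e : A' (κ₀ (l, v), t) =
        D.Q i₀ (Φ (GcR R.1 R.2.1 R.2.2.1 R.2.2.2 (n i₀) (h.choose.1, h.choose.2, t))) := dif_pos h
    rw [e]
    have key : ∀ q : ℝ × ℂ, ‖q.2‖ < 1 → κ₀ (l, v) = κ₀ q →
        GcR R.1 R.2.1 R.2.2.1 R.2.2.2 (n i₀) (q.1, q.2, t) = GcR R.1 R.2.1 R.2.2.1 R.2.2.2 (n i₀) (l, v, t) := by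
      rintro ⟨l', v'⟩ b2 b3
      obtain ⟨e1, a, e2⟩ := hκ'.inj l v l' v' hv1 b2 b3
      subst e1
      have h0 := NHS.gcR_per (a₁ := R.1) (b₁ := R.2.1) (a₂ := R.2.2.1) (b₂ := R.2.2.2) (n := n i₀) l t v a 0
      rw [Int.cast_zero, add_zero] at h0
      show GcR R.1 R.2.1 R.2.2.1 R.2.2.2 (n i₀) (l', v, t) = _
      rw [e2, h0]
    obtain ⟨b1, b2, b3⟩ := h.choose_spec
    rw [key _ b2 b3]
  have hA2 : ∀ x t, ¬ In x → A' (x, t) = D.A (x, t) := fun x t h => dif_neg h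
  have hGne : ∀ l v t, v ≠ 0 → ‖v‖ < 1 → fh (GcR R.1 R.2.1 R.2.2.1 R.2.2.2 (n i₀) (l, v, t)) ≠ 0 := by
    intro l v t h0 h1
    obtain ⟨m, hm⟩ := NHS.mor_dir h0
    exact (NHS.gcR_spec R.1 R.2.1 R.2.2.1 R.2.2.2 (n i₀) (l := l) (t := t) h0 h1 hm).1
  have hA3 : ∀ l v t, 7 / 8 < ‖v‖ → ‖v‖ < 1 → A' (κ₀ (l, v), t) = D.A (κ₀ (l, v), t) := by
    intro l v t hv hv1
    have hv0 : v ≠ 0 := by
      rintro rfl
      rw [norm_zero] at hv
      norm_num at hv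
    obtain ⟨m, hm⟩ := NHS.mor_dir hv0
    obtain ⟨hf, a1, a2, hr, hph⟩ := NHS.gcR_spec R.1 R.2.1 R.2.2.1 R.2.2.2 (n i₀) (l := l) (t := t) hv0 hv1 hm
    rw [hA1 l v t hv0 hv1, hg _ l m t hf (by rw [hr]; exact hv) hph, hr, ← hm, hκ'v]
  have hout : ∀ x, ¬ OnLink (fun i => (S' i).1) x → ¬ In x → ∀ l v, ‖v‖ < 1 → x ≠ κ₀ (l, v) := by
    intro x h1 h2 l v hv h3
    by_cases h0 : v = 0
    · exact h1 (hKn x ⟨l, by rw [h3, h0]⟩)
    · exact h2 ⟨(l, v), h0, hv, h3⟩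
  have hout' : ∀ x, ¬ OnLink (fun i => (S' i).1) x → ¬ In x → ∀ l v, ‖v‖ < 1 → x ≠ (S i₀).1 (l, v) := by
    intro x h1 h2 l v hv h3
    refine hout x h1 h2 (l - s) v hv ?_
    rw [hκ'v, sub_add_cancel]
    exact h3
  have hQA : ∀ z x t, fh z ≠ 0 → ¬ OnLink (fun i => (S' i).1) x → ¬ In x → D.Q i₀ (Φ z) ≠ D.A (x, t) :=
    fun z x t hz h1 h2 => mol_Q_ne_A hS D i₀ ((hne z).2 hz) t (fun h => h1 ((hK x).2 h)) (hout' x h1 h2)
  -- the new maps Q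
  let Q' : ι → S4 → X := fun i z => if i = i₀ then D.Q i₀ (Φ z) else D.Q i z
  have hQ0 : ∀ z, Q' i₀ z = D.Q i₀ (Φ z) := fun z => if_pos rfl
  have hQ1 : ∀ i z, i ≠ i₀ → Q' i z = D.Q i z := fun i z h => if_neg h
  refine ⟨{ A := A', Q := Q', A_per := ?_, A_loc := ?_, A_inj := ?_, Q_loc := ?_,
            Q_inj := ?_, glue := ?_, disj := ?_, cover := ?_ }⟩
  · intro x t
    by_cases hI : In x
    · obtain ⟨⟨l, v⟩, h0, h1, rfl⟩ := hI
      rw [hA1 l v _ h0 h1, hA1 l v _ h0 h1]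
      have h2 := NHS.gcR_per (a₁ := R.1) (b₁ := R.2.1) (a₂ := R.2.2.1) (b₂ := R.2.2.2) (n := n i₀) l t v 0 1
      rw [Int.cast_zero, add_zero, Int.cast_one] at h2
      rw [h2]
    · rw [hA2 x _ hI, hA2 x _ hI, D.A_per]
  · intro x t hx
    by_cases hI : In x
    · obtain ⟨⟨l, v⟩, h0, h1, rfl⟩ := hI
      have hcomp : IsLocalDiffeomorphAt 𝓘(ℝ, ℝ × ℂ × ℝ) (𝓡 4) ∞
          (A' ∘ fun q : ℝ × ℂ × ℝ => (κ₀ (q.1, q.2.1), q.2.2)) (l, v, t) := by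
        have hG := NHS.gcR_ld (n := n i₀) hU' (l := l) (t := t) h0 h1
        have hQ : IsLocalDiffeomorphAt (𝓡 4) (𝓡 4) ∞ (D.Q i₀ ∘ Φ) (GcR R.1 R.2.1 R.2.2.1 R.2.2.2 (n i₀) (l, v, t)) :=
          IsLocalDiffeomorphAt.comp (hf := hΦ _) (hg := D.Q_loc i₀ _ ((hne _).2 (hGne l v t h0 h1)))
        have hq : IsLocalDiffeomorphAt 𝓘(ℝ, ℝ × ℂ × ℝ) (𝓡 4) ∞
            ((D.Q i₀ ∘ Φ) ∘ GcR R.1 R.2.1 R.2.2.1 R.2.2.2 (n i₀)) (l, v, t) :=
          IsLocalDiffeomorphAt.comp (hf := hG) (hg := hQ)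
        refine Pool.Agent.CSG.ld_congr hq ?_
        have A1 : ∀ᶠ a : ℝ × ℂ × ℝ in 𝓝 (l, v, t), a.2.1 ≠ 0 :=
          (continuous_snd.fst).continuousAt.eventually_ne h0
        have A2 : ∀ᶠ a : ℝ × ℂ × ℝ in 𝓝 (l, v, t), ‖a.2.1‖ < 1 :=
          (continuous_snd.fst.norm).continuousAt.eventually_lt continuousAt_const h1
        filter_upwards [A1, A2] with a ha1 ha2
        exact hA1 a.1 a.2.1 a.2.2 ha1 ha2
      exact Pool.Agent.CSG.ld_of_comp_left (f := fun q : ℝ × ℂ × ℝ => (κ₀ (q.1, q.2.1), q.2.2)) (g := A')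
        (x := (l, v, t)) hcomp (NHS.mor_prod hκ' (v := v) h1)
    · refine Pool.Agent.CSG.ld_congr (D.A_loc x t fun h => hx ((hK x).2 h)) ?_
      have hcl := NHS.mor_closed hκ' (R := 7 / 8) (by norm_num)
      have hpC : x ∉ κ₀ '' {z : ℝ × ℂ | ‖z.2‖ ≤ 7 / 8} := by
        rintro ⟨⟨l, v⟩, hv, rfl⟩
        have hv' : ‖v‖ ≤ 7 / 8 := hv
        exact hout _ hx hI l v (by linarith) rfl
      have hnh : ∀ᶠ y : N × ℝ in 𝓝 (x, t), y.1 ∉ κ₀ '' {z : ℝ × ℂ | ‖z.2‖ ≤ 7 / 8} :=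
        (hcl.isOpen_compl.preimage continuous_fst).mem_nhds hpC
      filter_upwards [hnh] with y hy
      obtain ⟨y, u⟩ := y
      by_cases hIy : In y
      · obtain ⟨⟨l, v⟩, h0, h1, rfl⟩ := hIy
        refine hA3 l v u ?_ h1
        by_contra hc
        exact hy ⟨(l, v), not_lt.1 hc, rfl⟩
      · exact hA2 y u hIy
  · intro x x' t t' hp hp' he
    by_cases hI : In x
    · obtain ⟨⟨l, v⟩, h0, h1, rfl⟩ := hI
      rw [hA1 l v t h0 h1] at he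
      by_cases hI' : In x'
      · obtain ⟨⟨l', v'⟩, h0', h1', rfl⟩ := hI'
        rw [hA1 l' v' t' h0' h1'] at he
        have h2 := (D.Q_inj i₀ _ i₀ _ ((hne _).2 (hGne l v t h0 h1)) ((hne _).2 (hGne l' v' t' h0' h1')) he).2
        obtain ⟨e1, ⟨k, e2⟩, e3⟩ := NHS.gcR_inj hU' h0 h1 h0' h1' (Φ.injective h2)
        refine ⟨?_, e3⟩
        have e1' : v = v' := e1
        rw [← e1', e2]
        exact (per_int hκ'.per l v k).symm
      · rw [hA2 x' t' hI'] at he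
        exact absurd he (hQA _ x' t' (hGne l v t h0 h1) hp' hI')
    · rw [hA2 x t hI] at he
      by_cases hI' : In x'
      · obtain ⟨⟨l', v'⟩, h0', h1', rfl⟩ := hI'
        rw [hA1 l' v' t' h0' h1'] at he
        exact absurd he.symm (hQA _ x t (hGne l' v' t' h0' h1') hp hI)
      · rw [hA2 x' t' hI'] at he
        exact D.A_inj x x' t t' (fun h => hp ((hK x).2 h)) (fun h => hp' ((hK x').2 h)) he
  · intro i z hz
    by_cases hi : i = i₀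
    · subst hi
      have e : Q' i = D.Q i ∘ Φ := funext fun z => hQ0 z
      rw [e]
      exact IsLocalDiffeomorphAt.comp (hf := hΦ z) (hg := D.Q_loc i _ ((hne z).2 hz))
    · have e : Q' i = D.Q i := funext fun z => hQ1 i z hi
      rw [e]
      exact D.Q_loc i z hz
  · intro i z i' z' hz hz' he
    by_cases hi : i = i₀
    · by_cases hi' : i' = i₀
      · rw [hi, hi', hQ0, hQ0] at he
        exact ⟨hi.trans hi'.symm, Φ.injective (D.Q_inj i₀ _ i₀ _ ((hne z).2 hz) ((hne z').2 hz') he).2⟩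
      · rw [hi, hQ0, hQ1 i' z' hi'] at he
        exact absurd (D.Q_inj i₀ _ i' _ ((hne z).2 hz) hz' he).1.symm hi'
    · by_cases hi' : i' = i₀
      · rw [hi', hQ0, hQ1 i z hi] at he
        exact absurd (D.Q_inj i _ i₀ _ hz ((hne z').2 hz') he).1 hi
      · rw [hQ1 i z hi, hQ1 i' z' hi'] at he
        exact D.Q_inj i z i' z' hz hz' he
  · intro i z l m t hf g1 g2 e1 e2 e3
    by_cases hi : i = i₀
    · subst hi
      have hz := NHS.gcR_eq (a₁ := R.1) (b₁ := R.2.1) (a₂ := R.2.2.1) (b₂ := R.2.2.2) (n := n i) (l := l) (m := m) (t := t)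
        hf g1 g2 ⟨e1, e2, e3⟩
      show Q' i z = A' (κ₀ _, t)
      rw [hQ0, hA1 _ _ _ (NHS.mor_nv g1 g2 m) (glue_norm hf m), ← hz]
    · simp only [h1 i hi] at e1 e2 e3
      show Q' i z = A' ((S' i).1 (l, _), t)
      have hnI : ¬ In ((S' i).1 (l, ((2 * ‖c1 z‖ * ‖c2 z‖ : ℝ) : ℂ) * ex m)) := by
        rintro ⟨q, q1, q2, q3⟩
        exact hoth i hi _ _ q (glue_norm hf m) q2 q3
      rw [hQ1 i z hi, hA2 _ _ hnI, h1 i hi]
      exact D.glue i z l m t hf g1 g2 e1 e2 e3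
  · intro i z x t hf hz hp
    show Q' i z ≠ A' (x, t)
    by_cases hi : i = i₀
    · rw [hi, hQ0]
      by_cases hI : In x
      · obtain ⟨⟨l, v⟩, h0, h1, rfl⟩ := hI
        rw [hA1 l v t h0 h1]
        intro he
        have h2 := Φ.injective (D.Q_inj i₀ _ i₀ _ ((hne z).2 hf) ((hne _).2 (hGne l v t h0 h1)) he).2
        obtain ⟨m, hm⟩ := NHS.mor_dir h0
        obtain ⟨_, b1, b2, _⟩ := NHS.gcR_spec R.1 R.2.1 R.2.2.1 R.2.2.2 (n i₀) (l := l) (t := t) h0 h1 hm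
        rcases hz with hz | hz
        · rw [h2] at hz
          exact b1 hz
        · rw [h2] at hz
          exact b2 hz
      · rw [hA2 x t hI]
        exact hQA z x t hf hp hI
    · rw [hQ1 i z hi]
      by_cases hI : In x
      · obtain ⟨⟨l, v⟩, h0, h1, rfl⟩ := hI
        rw [hA1 l v t h0 h1]
        intro he
        exact hi (D.Q_inj i z i₀ _ hf ((hne _).2 (hGne l v t h0 h1)) he).1
      · rw [hA2 x t hI]
        exact D.disj i z x t hf hz (fun h => hp ((hK x).2 h))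
  · intro q
    have hQc : ∀ z : S4, fh z ≠ 0 → ∃ z' : S4, fh z' ≠ 0 ∧ D.Q i₀ z = D.Q i₀ (Φ z') := fun z hz =>
      ⟨Φ.symm z, by
        rw [← hne (Φ.symm z), Equiv.apply_symm_apply]
        exact hz, by rw [Equiv.apply_symm_apply]⟩
    rcases D.cover q with ⟨x, t, hp, hq⟩ | ⟨i, z, hf, hq⟩
    · by_cases hI : In x
      · obtain ⟨⟨l, v⟩, h0, h1, h2⟩ := hI
        rw [hκ'v] at h2
        right
        have h0' : v ≠ 0 := h0
        obtain ⟨m, hm⟩ := NHS.mor_dir h0'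
        obtain ⟨z', e1, e2⟩ := hQc (GcR (S i₀).2.1 (S i₀).2.2.1 (S i₀).2.2.2.1 (S i₀).2.2.2.2 (n i₀) (l + s, v, t))
          (NHS.gcR_spec (S i₀).2.1 (S i₀).2.2.1 (S i₀).2.2.2.1 (S i₀).2.2.2.2 (n i₀) (l := l + s) (t := t) h0' h1 hm).1
        refine ⟨i₀, z', e1, ?_⟩
        rw [hq, h2, hQ0, ← e2]
        exact (glueL D i₀ h0' h1).symm
      · refine Or.inl ⟨x, t, fun h => hp ((hK x).1 h), ?_⟩
        rw [hA2 x t hI]
        exact hq
    · by_cases hi : i = i₀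
      · rw [hi] at hq
        obtain ⟨z', e1, e2⟩ := hQc z hf
        exact Or.inr ⟨i₀, z', e1, by rw [hq, e2, hQ0]⟩
      · exact Or.inr ⟨i, z, hf, by rw [hq, hQ1 i z hi]⟩

end Pool.Agent.LNS
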