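import Pool.Agent.LNS.MoL
import Pool.Agent.NHS.MvR

/-!
# LNS/MvL: the elementary moves of one component   (difficulty 3)

PROOF.  Adapt `NHS/MvR.lean` (one component: `neg1R`, `neg2R`, `swapR`, `psiR`, `mvr_gen`).  `OkS S'`: `NHS.sh_thick`, the tube of `sh κ` is the tube of `κ`; the determinant changes
by `±1`.  `neg1`, `neg2`, `swap`: first prove the analogue of `mvr_gen` for the component `i₀` (`Q' i₀ = Q i₀ ∘ Φ`, the rest unchanged, `A' = A`), with `Φ` from `NHS.mvr_f1`,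
`NHS.mvr_f2`, `NHS.mvr_sw`.  `psi`: `modL` with `s = 1/2`, `Φ = NHJ.PsiP`; the computation in `hg` is that of `NHS.psiR`.
-/

open scoped Manifold ContDiff Topology
open Set Filter
open Complex (I)
open Pool.Agent.RSG
open Pool.Agent.NHS (Uni GcR Ph sh)
open Pool.Agent.LKZ (ThickL OnLink TwinL)

namespace Pool.Agent.LNS

variable {N : Type*} [TopologicalSpace N] [ChartedSpace E3 N] {ι : Type*} {S S' : ι → Cmp N}

omit [TopologicalSpace N] [ChartedSpace E3 N] in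
theorem mvl_uni {c c' : Cmp N} (h : Mv c c') (hU : UniM c.2) : UniM c'.2 := by
  cases h with
  | neg1 κ a b c d =>
    unfold UniM Uni at hU ⊢
    simp only at hU ⊢
    rcases hU with h | h
    · right
      linarith
    · left
      linarith
  | neg2 κ a b c d =>
    unfold UniM Uni at hU ⊢
    simp only at hU ⊢
    rcases hU with h | h
    · right
      linarith
    · left
      linarith
  | swap κ a b c d =>
    unfold UniM Uni at hU ⊢
    simp only at hU ⊢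
    rcases hU with h | h
    · right
      linarith
    · left
      linarith
  | psi κ a b c d =>
    unfold UniM Uni at hU ⊢
    simp only at hU ⊢
    have : (2 * a - c) * b - a * (2 * b - d) = a * d - c * b := by ring
    rw [this]
    exact hU

omit [TopologicalSpace N] [ChartedSpace E3 N] in
theorem mvl_sh {c c' : Cmp N} (h : Mv c c') : ∃ s : ℝ, ∀ q : ℝ × ℂ, c'.1 q = c.1 (q.1 + s, q.2) := by
  cases h with
  | neg1 κ a b c d => exact ⟨0, fun q => by simp⟩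
  | neg2 κ a b c d => exact ⟨0, fun q => by simp⟩
  | swap κ a b c d => exact ⟨1 / 2, fun q => rfl⟩
  | psi κ a b c d => exact ⟨1 / 2, fun q => rfl⟩

theorem mvl_thick {c c' : Cmp N} (h : Mv c c') (hc : Thick c.1) : Thick c'.1 := by
  cases h with
  | neg1 κ a b c d => exact hc
  | neg2 κ a b c d => exact hc
  | swap κ a b c d => exact NHS.sh_thick hc
  | psi κ a b c d => exact NHS.sh_thick hc

theorem mv_ok (hS : OkS S) (i₀ : ι) (h : Mv (S i₀) (S' i₀)) (h1 : ∀ i, i ≠ i₀ → S' i = S i) : OkS S' := by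
  have hsh : ∀ i, ∃ s : ℝ, ∀ q : ℝ × ℂ, (S' i).1 q = (S i).1 (q.1 + s, q.2) := by
    intro i
    by_cases hi : i = i₀
    · subst hi
      exact mvl_sh h
    · refine ⟨0, fun q => ?_⟩
      rw [h1 i hi]
      simp
  refine ⟨⟨?_, ?_⟩, ?_⟩
  · intro i
    by_cases hi : i = i₀
    · subst hi
      exact mvl_thick h (hS.link.thick i)
    · show Thick (S' i).1
      rw [h1 i hi]
      exact hS.link.thick i
  · intro i i' l v l' v' hv hv' he
    obtain ⟨s, hs⟩ := hsh i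
    obtain ⟨s', hs'⟩ := hsh i'
    have he' : (S i).1 (l + s, v) = (S i').1 (l' + s', v') := by
      rw [← hs (l, v), ← hs' (l', v')]
      exact he
    exact hS.link.disj i i' _ v _ v' hv hv' he'
  · intro i
    by_cases hi : i = i₀
    · subst hi
      exact mvl_uni h (hS.uni i)
    · rw [h1 i hi]
      exact hS.uni i

/-- change of the twins by diffeomorphisms of the 4-sphere which respect the gluing everywhere -/
theorem mvl_fam {n : ι → ℤ} {X : Type*} [TopologicalSpace X] [ChartedSpace E4 X] (D : TwinS S n X)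
    (Φ : ι → Equiv.Perm S4)
    (hΦ : ∀ i z, IsLocalDiffeomorphAt (𝓡 4) (𝓡 4) ∞ (Φ i) z) (hne : ∀ i z, fh (Φ i z) ≠ 0 ↔ fh z ≠ 0)
    (h0 : ∀ i z, (c1 z = 0 ∨ c2 z = 0) → (c1 (Φ i z) = 0 ∨ c2 (Φ i z) = 0))
    (hK : ∀ i x, OnKnot (S' i).1 x ↔ OnKnot (S i).1 x)
    (hg : ∀ (i : ι) (z : S4) (l m t : ℝ), fh z ≠ 0 → c1 z ≠ 0 → c2 z ≠ 0 →
      Ph (S' i).2.1 (S' i).2.2.1 (S' i).2.2.2.1 (S' i).2.2.2.2 (n i) z l m t →
      D.Q i (Φ i z) = D.A ((S' i).1 (l, (2 * ‖c1 z‖ * ‖c2 z‖ : ℝ) * ex m), t)) :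
    TS S' n X := by
  have hL : ∀ x, OnLink (fun i => (S' i).1) x ↔ OnLink (fun i => (S i).1) x := fun x =>
    ⟨fun ⟨i, hi⟩ => ⟨i, (hK i x).1 hi⟩, fun ⟨i, hi⟩ => ⟨i, (hK i x).2 hi⟩⟩
  refine ⟨{ A := D.A, Q := fun i z => D.Q i (Φ i z), A_per := D.A_per, A_loc := ?_, A_inj := ?_, Q_loc := ?_,
            Q_inj := ?_, glue := ?_, disj := ?_, cover := ?_ }⟩
  · exact fun x t hx => D.A_loc x t fun h => hx ((hL x).2 h)
  · exact fun x x' t t' hx hx' he => D.A_inj x x' t t' (fun h => hx ((hL x).2 h)) (fun h => hx' ((hL x').2 h)) he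
  · intro i z hz
    exact IsLocalDiffeomorphAt.comp (hf := hΦ i z) (hg := D.Q_loc i _ ((hne i z).2 hz))
  · intro i z i' z' hz hz' he
    obtain ⟨e1, e2⟩ := D.Q_inj i _ i' _ ((hne i z).2 hz) ((hne i' z').2 hz') he
    subst e1
    exact ⟨rfl, (Φ i).injective e2⟩
  · intro i z l m t hf h1 h2 e1 e2 e3
    exact hg i z l m t hf h1 h2 ⟨e1, e2, e3⟩
  · intro i z x t hf hz hx
    exact D.disj i (Φ i z) x t ((hne i z).2 hf) (h0 i z hz) fun h => hx ((hL x).2 h)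
  · intro q
    rcases D.cover q with ⟨x, t, hp, hq⟩ | ⟨i, z, hf, hq⟩
    · exact Or.inl ⟨x, t, fun h => hp ((hL x).1 h), hq⟩
    · refine Or.inr ⟨i, (Φ i).symm z, ?_, ?_⟩
      · rw [← hne i ((Φ i).symm z), Equiv.apply_symm_apply]
        exact hf
      · show q = D.Q i (Φ i ((Φ i).symm z))
        rw [Equiv.apply_symm_apply]
        exact hq

/-- change of one twin by a diffeomorphism of the 4-sphere which respects the gluing everywhere -/
theorem mvl_gen {n : ι → ℤ} {X : Type*} [TopologicalSpace X] [ChartedSpace E4 X] (D : TwinS S n X) (i₀ : ι)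
    (h1 : ∀ i, i ≠ i₀ → S' i = S i) (Φ : Equiv.Perm S4)
    (hΦ : ∀ z, IsLocalDiffeomorphAt (𝓡 4) (𝓡 4) ∞ Φ z) (hne : ∀ z, fh (Φ z) ≠ 0 ↔ fh z ≠ 0)
    (h0 : ∀ z, (c1 z = 0 ∨ c2 z = 0) → (c1 (Φ z) = 0 ∨ c2 (Φ z) = 0))
    (hK : ∀ x, OnKnot (S' i₀).1 x ↔ OnKnot (S i₀).1 x)
    (hg : ∀ (z : S4) (l m t : ℝ), fh z ≠ 0 → c1 z ≠ 0 → c2 z ≠ 0 →
      Ph (S' i₀).2.1 (S' i₀).2.2.1 (S' i₀).2.2.2.1 (S' i₀).2.2.2.2 (n i₀) z l m t →
      D.Q i₀ (Φ z) = D.A ((S' i₀).1 (l, (2 * ‖c1 z‖ * ‖c2 z‖ : ℝ) * ex m), t)) :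
    TS S' n X := by
  classical
  have a1 : (if i₀ = i₀ then Φ else Equiv.refl S4) = Φ := if_pos rfl
  have a2 : ∀ i, i ≠ i₀ → (if i = i₀ then Φ else Equiv.refl S4) = Equiv.refl S4 := fun i hi => if_neg hi
  refine mvl_fam D (fun i => if i = i₀ then Φ else Equiv.refl S4) ?_ ?_ ?_ ?_ ?_
  · intro i z
    by_cases hi : i = i₀
    · subst hi
      simp only [if_true]
      exact hΦ z
    · simp only [if_neg hi]
      exact CSG.ld_id z
  · intro i z
    by_cases hi : i = i₀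
    · subst hi
      simp only [if_true]
      exact hne z
    · simp only [if_neg hi, Equiv.refl_apply]
  · intro i z
    by_cases hi : i = i₀
    · subst hi
      simp only [if_true]
      exact h0 z
    · simp only [if_neg hi, Equiv.refl_apply]
      exact id
  · intro i x
    by_cases hi : i = i₀
    · subst hi
      exact hK x
    · rw [h1 i hi]
  · intro i z l m t hf hc1 hc2 hp
    by_cases hi : i = i₀
    · subst hi
      simp only [if_true]
      exact hg z l m t hf hc1 hc2 hp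
    · simp only [if_neg hi, Equiv.refl_apply]
      rw [h1 i hi] at hp ⊢
      exact D.glue i z l m t hf hc1 hc2 hp.p1 hp.p2 hp.p3

theorem mvL [T2Space N] [Finite ι] (hS : OkS S) (i₀ : ι) (h : Mv (S i₀) (S' i₀)) (h1 : ∀ i, i ≠ i₀ → S' i = S i)
    {n : ι → ℤ} {X : Type*} [TopologicalSpace X] [ChartedSpace E4 X] (D : TwinS S n X) : TS S' n X := by
  have hU' : UniM (S' i₀).2 := (mv_ok hS i₀ h h1).uni i₀
  have hgl := D.glue i₀
  generalize hc : S i₀ = c at h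
  generalize hc' : S' i₀ = c' at h
  cases h with
  | neg1 κ a b c d =>
    simp only [hc] at hgl
    obtain ⟨Φ, hc0, hΦ⟩ := NHS.mvr_f1
    have n1 : ∀ z, ‖c1 (Φ z)‖ = ‖c1 z‖ := fun z => by rw [(hc0 z).1, RCLike.norm_conj]
    have n2 : ∀ z, ‖c2 (Φ z)‖ = ‖c2 z‖ := fun z => by rw [(hc0 z).2.1]
    have hf : ∀ z, fh (Φ z) = fh z := fun z => NHS.mvr_fh (n1 z) (n2 z) (hc0 z).2.2
    refine mvl_gen D i₀ h1 Φ hΦ (fun z => by rw [hf z]) ?_ (fun x => by rw [hc, hc']) ?_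
    · intro z hz
      rw [← norm_eq_zero, n1, norm_eq_zero, (hc0 z).2.1]
      exact hz
    · intro z l m t h0 hz1 hz2 hp
      rw [hc'] at hp ⊢
      simp only at hp ⊢
      have e1 : c1 (Φ z) = ‖c1 (Φ z)‖ * ex (a * m + b * t) := by
        rw [n1, (hc0 z).1]
        conv_lhs => rw [hp.p1]
        rw [map_mul, Complex.conj_ofReal, ← ex_neg]
        congr 2
        push_cast
        ring
      have e2 : c2 (Φ z) = ‖c2 (Φ z)‖ * ex (c * m + d * t) := by
        rw [(hc0 z).2.1]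
        exact hp.p2
      have e3 : fh (Φ z) = ‖fh (Φ z)‖ * ex (l - n i₀ * t) := by
        rw [hf]
        exact hp.p3
      rw [hgl (Φ z) l m t (by rw [hf]; exact h0) (by rw [← norm_ne_zero_iff, n1, norm_ne_zero_iff]; exact hz1)
        (by rw [← norm_ne_zero_iff, n2, norm_ne_zero_iff]; exact hz2) e1 e2 e3, n1, n2]
  | neg2 κ a b c d =>
    simp only [hc] at hgl
    obtain ⟨Φ, hc0, hΦ⟩ := NHS.mvr_f2
    have n1 : ∀ z, ‖c1 (Φ z)‖ = ‖c1 z‖ := fun z => by rw [(hc0 z).1]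
    have n2 : ∀ z, ‖c2 (Φ z)‖ = ‖c2 z‖ := fun z => by rw [(hc0 z).2.1, RCLike.norm_conj]
    have hf : ∀ z, fh (Φ z) = fh z := fun z => NHS.mvr_fh (n1 z) (n2 z) (hc0 z).2.2
    refine mvl_gen D i₀ h1 Φ hΦ (fun z => by rw [hf z]) ?_ (fun x => by rw [hc, hc']) ?_
    · intro z hz
      rw [(hc0 z).1, ← norm_eq_zero (a := c2 (Φ z)), n2, norm_eq_zero]
      exact hz
    · intro z l m t h0 hz1 hz2 hp
      rw [hc'] at hp ⊢
      simp only at hp ⊢
      have e1 : c1 (Φ z) = ‖c1 (Φ z)‖ * ex (a * m + b * t) := by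
        rw [(hc0 z).1]
        exact hp.p1
      have e2 : c2 (Φ z) = ‖c2 (Φ z)‖ * ex (c * m + d * t) := by
        rw [n2, (hc0 z).2.1]
        conv_lhs => rw [hp.p2]
        rw [map_mul, Complex.conj_ofReal, ← ex_neg]
        congr 2
        push_cast
        ring
      have e3 : fh (Φ z) = ‖fh (Φ z)‖ * ex (l - n i₀ * t) := by
        rw [hf]
        exact hp.p3
      rw [hgl (Φ z) l m t (by rw [hf]; exact h0) (by rw [← norm_ne_zero_iff, n1, norm_ne_zero_iff]; exact hz1)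
        (by rw [← norm_ne_zero_iff, n2, norm_ne_zero_iff]; exact hz2) e1 e2 e3, n1, n2]
  | swap κ a b c d =>
    simp only [hc] at hgl
    obtain ⟨Φ, hc0, hΦ⟩ := NHS.mvr_sw
    have n1 : ∀ z, ‖c1 (Φ z)‖ = ‖c2 z‖ := fun z => by rw [(hc0 z).1]
    have n2 : ∀ z, ‖c2 (Φ z)‖ = ‖c1 z‖ := fun z => by rw [(hc0 z).2.1]
    have hf : ∀ z, fh (Φ z) = -fh z := fun z => NHJ.fh_of (n1 z) (n2 z) (hc0 z).2.2
    refine mvl_gen D i₀ h1 Φ hΦ (fun z => by rw [hf z, neg_ne_zero]) ?_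
      (fun x => by rw [hc, hc']; exact NHS.mvr_knot x) ?_
    · intro z hz
      rw [(hc0 z).1, (hc0 z).2.1]
      exact hz.symm
    · intro z l m t h0 hz1 hz2 hp
      rw [hc'] at hp ⊢
      simp only at hp ⊢
      have e1 : c1 (Φ z) = ‖c1 (Φ z)‖ * ex (a * m + b * t) := by
        rw [(hc0 z).1]
        exact hp.p2
      have e2 : c2 (Φ z) = ‖c2 (Φ z)‖ * ex (c * m + d * t) := by
        rw [(hc0 z).2.1]
        exact hp.p1
      rw [hgl (Φ z) (l + 1 / 2) m t (by rw [hf, neg_ne_zero]; exact h0) (by rw [(hc0 z).1]; exact hz2)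
        (by rw [(hc0 z).2.1]; exact hz1) e1 e2 (NHS.mvr_half (hf z) hp.p3), n1, n2,
        show 2 * ‖c2 z‖ * ‖c1 z‖ = 2 * ‖c1 z‖ * ‖c2 z‖ by ring]
      rfl
  | psi κ a b c d =>
    simp only [hc] at hgl
    refine modL hS D i₀ (1 / 2) hU' (by rw [hc, hc']; rfl) h1 NHJ.PsiP NHJ.PsiP_ld NHJ.Psi_ne ?_
    intro z l m t h0 hr hp
    rw [hc'] at hp
    simp only at hp
    show D.Q i₀ (NHJ.Psi z) = _
    obtain ⟨f1, f2⟩ := NHJ.far_of hr
    obtain ⟨a1, a2, a3⟩ := NHJ.Psi_far f2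
    have n1 : ‖c1 (NHJ.Psi z)‖ = ‖c2 z‖ := by rw [a1]
    have n2 : ‖c2 (NHJ.Psi z)‖ = ‖c1 z‖ := by
      rw [a2, norm_mul, NHJ.unit_sq f2, one_mul, RCLike.norm_conj]
    have hf : fh (NHJ.Psi z) = -fh z := NHJ.Psi_fh f2
    have k1 : c1 (NHJ.Psi z) ≠ 0 := by
      rw [← norm_ne_zero_iff, n1]
      intro h
      rw [h] at f2
      norm_num at f2
    have k2 : c2 (NHJ.Psi z) ≠ 0 := by
      rw [← norm_ne_zero_iff, n2]
      intro h
      rw [h] at f1
      norm_num at f1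
    have e1 : c1 (NHJ.Psi z) = ‖c1 (NHJ.Psi z)‖ * ex (a * m + b * t) := by
      rw [n1, a1]
      exact hp.p2
    have e2 : c2 (NHJ.Psi z) = ‖c2 (NHJ.Psi z)‖ * ex (c * m + d * t) := by
      rw [n2, a2, NHJ.unit_ex f2 hp.p2]
      have h1 : (starRingEnd ℂ) (c1 z) = ‖c1 z‖ * ex (-((2 * a - c : ℤ) * m + (2 * b - d : ℤ) * t)) := by
        conv_lhs => rw [hp.p1]
        rw [map_mul, Complex.conj_ofReal, ex_neg]
      rw [h1, mul_left_comm, ← ex_add]
      congr 2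
      push_cast
      ring
    rw [hgl (NHJ.Psi z) (l + 1 / 2) m t (by rw [hf, neg_ne_zero]; exact h0) k1 k2 e1 e2 (NHS.mvr_half hf hp.p3), n1, n2,
      show 2 * ‖c2 z‖ * ‖c1 z‖ = 2 * ‖c1 z‖ * ‖c2 z‖ by ring, hc]

end Pool.Agent.LNS
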