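import Pool.Agent.LNS.Defs
import Pool.Agent.NHS.MvR
import Pool.Agent.NHS.Euc

/-!
# LNS/RcL: every component reduces to three normal forms by moves (combinatorics)   (difficulty 2)

PROOFS.  `mv_symm`: `neg1`, `neg2` are involutions; `swap` twice gives `(sh (sh κ), R) = (κ, R)` (`NHS.sh_sh hκ`); `psi` has rows `(r₁, r₂) ↦ (2 r₁ - r₂, r₁)`, its inverse is
`swap`, `psi`, `swap`: `(s₁, s₂) ↦ (s₂, s₁) ↦ (2 s₂ - s₁, s₂) ↦ (s₂, 2 s₂ - s₁)`, and the knot is `sh (sh (sh (sh κ))) = κ`.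
`rch_symm`: induction, each knot on the way is thick (`mv_thick`).
`rch_add1`: rows `(r₁, r₂ + 2 k r₁)` are reachable: as `NHS.mvr_down`, `mvr_up`, `add1R` (`psi`, `swap`, `neg2`: `(r₁, r₂) ↦ (2r₁ - r₂, r₁) ↦ (r₁, 2 r₁ - r₂) ↦ (r₁, r₂ - 2 r₁)`).
`rch_norm`: `NHS.euclid` with `S a b c d = Rch (κ, R) (κ, a, b, c, d)` gives one of the six forms `(1,1,1,0)`, `(1,0,1,1)`, `(0,1,1,0)`, `(1,0,0,1)`, `(0,1,1,-1)`, `(1,-1,0,1)`; the second, fourth and
sixth become the first, third and fifth by `swap` (knot `sh κ`).  See `NHS/Red.lean`.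
-/

open scoped Manifold ContDiff
open Pool.Agent.RSG
open Pool.Agent.NHS (Uni sh)

namespace Pool.Agent.LNS

variable {N : Type*} [TopologicalSpace N] [ChartedSpace E3 N]

theorem mv_thick {s s' : Cmp N} (h : Mv s s') (hs : Thick s.1) : Thick s'.1 := by
  cases h with
  | neg1 κ a b c d => exact hs
  | neg2 κ a b c d => exact hs
  | swap κ a b c d => exact NHS.sh_thick hs
  | psi κ a b c d => exact NHS.sh_thick hs

omit [TopologicalSpace N] [ChartedSpace E3 N] in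
theorem rcl_cast {s : Cmp N} {κ κ' : ℝ × ℂ → N} {a b c d a' b' c' d' : ℤ} (h : Rch s (κ, a, b, c, d)) (h0 : κ = κ')
    (h1 : a = a') (h2 : b = b') (h3 : c = c') (h4 : d = d') : Rch s (κ', a', b', c', d') := by
  subst h0 h1 h2 h3 h4
  exact h

theorem mv_symm {s s' : Cmp N} (h : Mv s s') (hs : Thick s.1) : Rch s' s := by
  cases h with
  | neg1 κ a b c d =>
    exact rcl_cast (Relation.ReflTransGen.single (Mv.neg1 κ (-a) (-b) c d)) rfl (neg_neg a) (neg_neg b) rfl rfl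
  | neg2 κ a b c d =>
    exact rcl_cast (Relation.ReflTransGen.single (Mv.neg2 κ a b (-c) (-d))) rfl rfl rfl (neg_neg c) (neg_neg d)
  | swap κ a b c d =>
    exact rcl_cast (Relation.ReflTransGen.single (Mv.swap (sh κ) c d a b)) (NHS.sh_sh hs) rfl rfl rfl rfl
  | psi κ a b c d =>
    have hs' : Thick κ := hs
    have e1 : Rch (sh κ, 2 * a - c, 2 * b - d, a, b) (sh (sh κ), a, b, 2 * a - c, 2 * b - d) :=
      Relation.ReflTransGen.single (Mv.swap (sh κ) (2 * a - c) (2 * b - d) a b)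
    have e2 : Rch (sh κ, 2 * a - c, 2 * b - d, a, b) (κ, a, b, 2 * a - c, 2 * b - d) :=
      rcl_cast e1 (NHS.sh_sh hs') rfl rfl rfl rfl
    have e3 : Rch (sh κ, 2 * a - c, 2 * b - d, a, b) (sh κ, c, d, a, b) :=
      rcl_cast (Relation.ReflTransGen.tail e2 (Mv.psi κ a b (2 * a - c) (2 * b - d))) rfl (by ring) (by ring) rfl rfl
    exact rcl_cast (Relation.ReflTransGen.tail e3 (Mv.swap (sh κ) c d a b)) (NHS.sh_sh hs') rfl rfl rfl rfl

theorem rcl_thick {s s' : Cmp N} (h : Rch s s') (hs : Thick s.1) : Thick s'.1 := by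
  induction h with
  | refl => exact hs
  | tail _ h2 ih => exact mv_thick h2 ih

theorem rch_symm {s s' : Cmp N} (h : Rch s s') (hs : Thick s.1) : Rch s' s := by
  induction h with
  | refl => exact Relation.ReflTransGen.refl
  | tail h1 h2 ih => exact Relation.ReflTransGen.trans (mv_symm h2 (rcl_thick h1 hs)) ih

theorem rcl_down {κ : ℝ × ℂ → N} (hκ : Thick κ) (a b c d : ℤ) : Rch (κ, a, b, c, d) (κ, a, b, c - 2 * a, d - 2 * b) := by
  have e1 : Rch (κ, a, b, c, d) (sh κ, 2 * a - c, 2 * b - d, a, b) :=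
    Relation.ReflTransGen.single (Mv.psi κ a b c d)
  have e2 : Rch (κ, a, b, c, d) (κ, a, b, 2 * a - c, 2 * b - d) :=
    rcl_cast (Relation.ReflTransGen.tail e1 (Mv.swap (sh κ) (2 * a - c) (2 * b - d) a b)) (NHS.sh_sh hκ) rfl rfl rfl rfl
  exact rcl_cast (Relation.ReflTransGen.tail e2 (Mv.neg2 κ a b (2 * a - c) (2 * b - d))) rfl rfl rfl (by ring) (by ring)

theorem rcl_up {κ : ℝ × ℂ → N} (hκ : Thick κ) (a b c d : ℤ) : Rch (κ, a, b, c, d) (κ, a, b, c + 2 * a, d + 2 * b) := by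
  have e1 := rcl_down hκ a b (c + 2 * a) (d + 2 * b)
  have e2 : Rch (κ, a, b, c + 2 * a, d + 2 * b) (κ, a, b, c, d) := rcl_cast e1 rfl rfl rfl (by ring) (by ring)
  exact rch_symm e2 hκ

theorem rch_add1 {κ : ℝ × ℂ → N} (hκ : Thick κ) (a b c d k : ℤ) : Rch (κ, a, b, c, d) (κ, a, b, c + 2 * k * a, d + 2 * k * b) := by
  induction k using Int.induction_on with
  | zero => exact rcl_cast Relation.ReflTransGen.refl rfl rfl rfl (by ring) (by ring)
  | succ i ih =>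
    exact rcl_cast (Relation.ReflTransGen.trans ih (rcl_up hκ a b _ _)) rfl rfl rfl (by ring) (by ring)
  | pred i ih =>
    exact rcl_cast (Relation.ReflTransGen.trans ih (rcl_down hκ a b _ _)) rfl rfl rfl (by ring) (by ring)

theorem rch_add2 {κ : ℝ × ℂ → N} (hκ : Thick κ) (a b c d k : ℤ) : Rch (κ, a, b, c, d) (κ, a + 2 * k * c, b + 2 * k * d, c, d) := by
  have e1 : Rch (κ, a, b, c, d) (sh κ, c, d, a, b) := Relation.ReflTransGen.single (Mv.swap κ a b c d)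
  have e2 := Relation.ReflTransGen.trans e1 (rch_add1 (NHS.sh_thick hκ) c d a b k)
  exact rcl_cast (Relation.ReflTransGen.tail e2 (Mv.swap (sh κ) c d (a + 2 * k * c) (b + 2 * k * d))) (NHS.sh_sh hκ)
    rfl rfl rfl rfl

theorem rch_norm {s : Cmp N} (hs : Thick s.1) (hU : UniM s.2) :
    ∃ s' : Cmp N, Rch s s' ∧ Rch s' s ∧ (s'.1 = s.1 ∨ s'.1 = sh s.1) ∧
      (s'.2 = (1, 1, 1, 0) ∨ s'.2 = (0, 1, 1, 0) ∨ s'.2 = (0, 1, 1, -1)) := by
  obtain ⟨κ, a, b, c, d⟩ := s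
  have hκ : Thick κ := hs
  have hU' : Uni a b c d := hU
  have h := NHS.euclid (S := fun a' b' c' d' => Rch (κ, a, b, c, d) (κ, a', b', c', d'))
    (fun a' b' c' d' _ h => Relation.ReflTransGen.tail h (Mv.neg1 κ a' b' c' d'))
    (fun a' b' c' d' _ h => Relation.ReflTransGen.tail h (Mv.neg2 κ a' b' c' d'))
    (fun a' b' c' d' k _ h => Relation.ReflTransGen.trans h (rch_add1 hκ a' b' c' d' k))
    (fun a' b' c' d' k _ h => Relation.ReflTransGen.trans h (rch_add2 hκ a' b' c' d' k)) hU'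
    Relation.ReflTransGen.refl
  rcases h with h | h | h | h | h | h
  · exact ⟨(κ, 1, 1, 1, 0), h, rch_symm h hκ, Or.inl rfl, Or.inl rfl⟩
  · have h' : Rch (κ, a, b, c, d) (sh κ, 1, 1, 1, 0) := Relation.ReflTransGen.tail h (Mv.swap κ 1 0 1 1)
    exact ⟨(sh κ, 1, 1, 1, 0), h', rch_symm h' hκ, Or.inr rfl, Or.inl rfl⟩
  · exact ⟨(κ, 0, 1, 1, 0), h, rch_symm h hκ, Or.inl rfl, Or.inr (Or.inl rfl)⟩
  · have h' : Rch (κ, a, b, c, d) (sh κ, 0, 1, 1, 0) := Relation.ReflTransGen.tail h (Mv.swap κ 1 0 0 1)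
    exact ⟨(sh κ, 0, 1, 1, 0), h', rch_symm h' hκ, Or.inr rfl, Or.inr (Or.inl rfl)⟩
  · exact ⟨(κ, 0, 1, 1, -1), h, rch_symm h hκ, Or.inl rfl, Or.inr (Or.inr rfl)⟩
  · have h' : Rch (κ, a, b, c, d) (sh κ, 0, 1, 1, -1) := Relation.ReflTransGen.tail h (Mv.swap κ 1 (-1) 0 1)
    exact ⟨(sh κ, 0, 1, 1, -1), h', rch_symm h' hκ, Or.inr rfl, Or.inr (Or.inr rfl)⟩

end Pool.Agent.LNS
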