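import Pool.Agent.LNS.MvL
import Pool.Agent.LNS.RcL

/-!
# LNS/RdL: reduction of all components   (difficulty 2)

PROOFS.  `rch_one`: induction over `Rch` (`Relation.ReflTransGen`): `mv_ok`, `mvL` with `Function.update S i₀ s'`.
`rch_all`: finite induction over the components (`Set.Finite.induction_on` or `Finset.induction_on` with the family `fun i => if i ∈ T then S' i else S i`), `rch_one`.
`redL`: `rch_norm` for every component (choice), then `rch_all` from `S'` to `S`.
-/

open scoped Manifold ContDiff
open Pool.Agent.RSG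
open Pool.Agent.NHS (Uni sh)

namespace Pool.Agent.LNS

variable {N : Type*} [TopologicalSpace N] [ChartedSpace E3 N] [T2Space N] {ι : Type*} [Finite ι] {S S' : ι → Cmp N}

open Classical in
theorem rch_one (hS : OkS S) (i₀ : ι) {s' : Cmp N} (h : Rch (S i₀) s') :
    OkS (Function.update S i₀ s') ∧ ∀ {n : ι → ℤ} {X : Type*} [TopologicalSpace X] [ChartedSpace E4 X],
      TS S n X → TS (Function.update S i₀ s') n X := by
  induction h with
  | refl =>
    rw [Function.update_eq_self]
    exact ⟨hS, fun h => h⟩
  | @tail b c h1 h2 ih =>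
    have e1 : Function.update S i₀ b i₀ = b := Function.update_self ..
    have e2 : Function.update S i₀ c i₀ = c := Function.update_self ..
    have h3 : Mv (Function.update S i₀ b i₀) (Function.update S i₀ c i₀) := by
      rw [e1, e2]
      exact h2
    have h4 : ∀ i, i ≠ i₀ → Function.update S i₀ c i = Function.update S i₀ b i := by
      intro i hi
      rw [Function.update_of_ne hi, Function.update_of_ne hi]
    refine ⟨mv_ok ih.1 i₀ h3 h4, ?_⟩
    intro n X _ _ hX
    obtain ⟨D⟩ := ih.2 hX
    exact mvL ih.1 i₀ h3 h4 D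

theorem rch_all (hS : OkS S) (h : ∀ i, Rch (S i) (S' i)) :
    OkS S' ∧ ∀ {n : ι → ℤ} {X : Type*} [TopologicalSpace X] [ChartedSpace E4 X], TS S n X → TS S' n X := by
  classical
  cases nonempty_fintype ι
  have key : ∀ T : Finset ι, OkS (fun i => if i ∈ T then S' i else S i) ∧
      ∀ {n : ι → ℤ} {X : Type _} [TopologicalSpace X] [ChartedSpace E4 X],
        TS S n X → TS (fun i => if i ∈ T then S' i else S i) n X := by
    intro T
    induction T using Finset.induction_on with
    | empty =>
      have e : (fun i => if i ∈ (∅ : Finset ι) then S' i else S i) = S := by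
        funext i
        rw [if_neg (Finset.notMem_empty i)]
      rw [e]
      exact ⟨hS, fun h => h⟩
    | insert a T ha ih =>
      have e : (fun i => if i ∈ insert a T then S' i else S i) =
          Function.update (fun i => if i ∈ T then S' i else S i) a (S' a) := by
        funext i
        by_cases hi : i = a
        · rw [hi, Function.update_self, if_pos (Finset.mem_insert_self a T)]
        · rw [Function.update_of_ne hi]
          by_cases hT : i ∈ T
          · rw [if_pos (Finset.mem_insert_of_mem hT), if_pos hT]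
          · have hT' : i ∉ insert a T := by
              intro h'
              rcases Finset.mem_insert.1 h' with h' | h'
              · exact hi h'
              · exact hT h'
            rw [if_neg hT', if_neg hT]
      rw [e]
      have hr : Rch ((fun i => if i ∈ T then S' i else S i) a) (S' a) := by
        show Rch (if a ∈ T then S' a else S a) (S' a)
        rw [if_neg ha]
        exact h a
      have h5 := rch_one ih.1 a hr
      exact ⟨h5.1, fun hX => h5.2 (ih.2 hX)⟩
  have h6 := key Finset.univ
  have e : (fun i => if i ∈ (Finset.univ : Finset ι) then S' i else S i) = S' := by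
    funext i
    rw [if_pos (Finset.mem_univ i)]
  rw [e] at h6
  exact h6

theorem redL (hS : OkS S) :
    ∃ S' : ι → Cmp N, OkS S' ∧ (∀ i, (S' i).1 = (S i).1 ∨ (S' i).1 = sh (S i).1) ∧
      (∀ i, (S' i).2 = (1, 1, 1, 0) ∨ (S' i).2 = (0, 1, 1, 0) ∨ (S' i).2 = (0, 1, 1, -1)) ∧
      ∀ {n : ι → ℤ} {X : Type*} [TopologicalSpace X] [ChartedSpace E4 X], TS S' n X → TS S n X := by
  have h0 : ∀ i, ∃ s' : Cmp N, Rch (S i) s' ∧ Rch s' (S i) ∧ (s'.1 = (S i).1 ∨ s'.1 = sh (S i).1) ∧
      (s'.2 = (1, 1, 1, 0) ∨ s'.2 = (0, 1, 1, 0) ∨ s'.2 = (0, 1, 1, -1)) :=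
    fun i => rch_norm (hS.link.thick i) (hS.uni i)
  choose S' h1 h2 h3 h4 using h0
  have h5 : OkS S' := (rch_all.{_, _, 0} hS h1).1
  refine ⟨S', h5, h3, h4, ?_⟩
  intro n X _ _ hX
  exact (rch_all h5 h2).2 hX

end Pool.Agent.LNS
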