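import Pool.Agent.LNS.UnL
import Pool.Agent.LKT.Defs
import Pool.Agent.LKS.Comp
import Pool.Agent.NHS.MoR

/-!
# LNS/SpC: a spin component is glued last   (difficulty 4)

`i₀` is a component with the matrix `(0, 1, 1, -j)`.  `Y` is the manifold where the other twins are glued to `N × S¹`.

PROOF.  Adapt `LKS/Comp.lean` (`LKS.comp`).  The torus is `spT D₀ (l, v, u) = D₀.A (κ i₀ (l + n i₀ u, v ex (j u)), u)`.
`spT_thick`: periods: `D₀.A_per`, `(hκ.thick i₀).per` (`n i₀` steps: `RSG.per_int`), `ex (j (u + 1)) = ex (j u)`; local diffeomorphism: composition of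
`(l, v, u) ↦ (l + n u, v ex (j u), u)` (a diffeomorphism of `ℝ × ℂ × ℝ`, `CSG.ld_of_perm`), `(l, v, u) ↦ (κ i₀ (l, v), u)` (`NHS.mor_prod`) and `D₀.A` (the points of the tube `i₀` are off the
other components); injectivity: `D₀.A_inj`, `(hκ.thick i₀).inj`: `u' = u + m`, then `v' = v`, `l' = l + m'`.
`comp_spin`: `A (x, t) = D₁.A (D₀.A (x, t))`, `Q i z = D₁.A (D₀.Q i z)` for `i ≠ i₀`, `Q i₀ z = D₁.Q () z`.
`glue` at `i₀`: phases of `z`: `arg c1 = 0 m + 1 t = t`, `arg c2 = m - j t`, `arg fh = l - n t`; with `u = t`, `m' = m - j t`, `l' = l - n t` the glue of `D₁` gives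
`D₁.Q () z = D₁.A (spT D₀ (l', ρ ex m', t)) = D₁.A (D₀.A (κ i₀ (l, ρ ex m), t))`.  `glue` at `i ≠ i₀`: `D₀.glue`.
`A_loc`, `A_inj`: for `x` off the link, `D₀.A (x, t)` is off the torus (`aL_iff`).  `Q_loc`, `Q_inj`, `disj`, `cover`: as in `LKS.comp` ((F3): `D₀.Q i z` is not on the tube of `spT D₀`: by
`D₀.disj` and `D₀.glue` (phases by `NHS.ph_exists (hU i)`), because the tubes are disjoint).
-/

open scoped Manifold ContDiff Topology
open Set Filter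
open Complex (I)
open Pool.Agent.RSG
open Pool.Agent.RBM (ThickT OnT)
open Pool.Agent.NHS (Uni GcR Ph sh)
open Pool.Agent.LKZ (ThickL OnLink TwinL)
open Pool.Agent.LKT (TwMF)

namespace Pool.Agent.LNS

variable {N : Type*} [TopologicalSpace N] [ChartedSpace E3 N] {ι : Type*} {κ : ι → ℝ × ℂ → N} {a₁ b₁ a₂ b₂ n : ι → ℤ} {i₀ : ι}
  {Y : Type*} [TopologicalSpace Y] [ChartedSpace E4 Y]

/-- the torus of the component `i₀` in the manifold where the other twins are glued -/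
noncomputable def spT (κ : ι → ℝ × ℂ → N) (i₀ : ι) (n₀ j : ℤ) (A : N × ℝ → Y) (q : ℝ × ℂ × ℝ) : Y :=
  A (κ i₀ (q.1 + n₀ * q.2.2, q.2.1 * ex (j * q.2.2)), q.2.2)

/-- the family of the other components -/
theorem spc_sub (hκ : ThickL κ) : ThickL (fun i : {i // i ≠ i₀} => κ i) :=
  ⟨fun i => hκ.thick i, fun i i' l v l' v' hv hv' he => Subtype.ext (hκ.disj i i' l v l' v' hv hv' he)⟩

theorem spc_off (hκ : ThickL κ) (l : ℝ) {v : ℂ} (hv : ‖v‖ < 1) :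
    ¬ OnLink (fun i : {i // i ≠ i₀} => κ i) (κ i₀ (l, v)) := by
  rintro ⟨i, l', he⟩
  exact i.2 (hκ.disj i₀ i l v l' 0 hv (by simp) he).symm

omit [TopologicalSpace N] [ChartedSpace E3 N] in
theorem spc_sub_off {x : N} (hx : ¬ OnLink κ x) : ¬ OnLink (fun i : {i // i ≠ i₀} => κ i) x :=
  fun ⟨i, h⟩ => hx ⟨i, h⟩

theorem spc_norm {v : ℂ} (hv : ‖v‖ < 1) (x : ℝ) : ‖v * ex x‖ < 1 := by
  rw [norm_mul, ex_norm, mul_one]
  exact hv

/-- the change of coordinates -/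
noncomputable def spc_perm (n₀ j : ℤ) : (ℝ × ℂ × ℝ) ≃ (ℝ × ℂ × ℝ) where
  toFun q := (q.1 + n₀ * q.2.2, q.2.1 * ex (j * q.2.2), q.2.2)
  invFun q := (q.1 - n₀ * q.2.2, q.2.1 * ex (-(j * q.2.2)), q.2.2)
  left_inv q := by
    refine Prod.ext ?_ (Prod.ext ?_ rfl)
    · show q.1 + n₀ * q.2.2 - n₀ * q.2.2 = q.1
      ring
    · show q.2.1 * ex (j * q.2.2) * ex (-(j * q.2.2)) = q.2.1
      rw [mul_assoc, ← ex_add, add_neg_cancel, ex_zero, mul_one]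
  right_inv q := by
    refine Prod.ext ?_ (Prod.ext ?_ rfl)
    · show q.1 - n₀ * q.2.2 + n₀ * q.2.2 = q.1
      ring
    · show q.2.1 * ex (-(j * q.2.2)) * ex (j * q.2.2) = q.2.1
      rw [mul_assoc, ← ex_add, neg_add_cancel, ex_zero, mul_one]

theorem spc_perm_ld (n₀ j : ℤ) (q : ℝ × ℂ × ℝ) :
    IsLocalDiffeomorphAt 𝓘(ℝ, ℝ × ℂ × ℝ) 𝓘(ℝ, ℝ × ℂ × ℝ) ∞ (spc_perm n₀ j) q := by
  refine CSG.ld_of_perm (f := spc_perm n₀ j) ?_ ?_ q
  · refine ContDiff.prodMk ?_ (ContDiff.prodMk ?_ contDiff_snd.snd)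
    · exact contDiff_fst.add (contDiff_const.mul contDiff_snd.snd)
    · exact contDiff_snd.fst.mul (ex_smooth.comp (contDiff_const.mul contDiff_snd.snd))
  · refine ContDiff.prodMk ?_ (ContDiff.prodMk ?_ contDiff_snd.snd)
    · exact contDiff_fst.sub (contDiff_const.mul contDiff_snd.snd)
    · exact contDiff_snd.fst.mul (ex_smooth.comp (contDiff_const.mul contDiff_snd.snd).neg)

theorem spT_thick (hκ : ThickL κ)
    (D₀ : TwinL (fun i : {i // i ≠ i₀} => κ i) (fun i => a₁ i) (fun i => b₁ i) (fun i => a₂ i) (fun i => b₂ i) (fun i => n i) Y)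
    (j : ℤ) : ThickT (𝓡 4) (spT κ i₀ (n i₀) j D₀.A) := by
  refine ⟨fun l v t => ?_, fun l v t => ?_, fun l v t hv => ?_, fun l v t l' v' t' hv hv' he => ?_⟩
  · show D₀.A (κ i₀ (l + 1 + n i₀ * t, _), t) = D₀.A (κ i₀ (l + n i₀ * t, _), t)
    rw [show l + 1 + n i₀ * t = l + n i₀ * t + 1 by ring, (hκ.thick i₀).per]
  · show D₀.A (κ i₀ (l + n i₀ * (t + 1), v * ex (j * (t + 1))), t + 1) = D₀.A (κ i₀ (l + n i₀ * t, v * ex (j * t)), t)
    rw [D₀.A_per, show (j : ℝ) * (t + 1) = j * t + j by ring, ex_add_int, show l + n i₀ * (t + 1) = l + n i₀ * t + n i₀ by ring,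
      per_int (hκ.thick i₀).per]
  · have h1 := spc_perm_ld (n i₀) j (l, v, t)
    have h2 := NHS.mor_prod (hκ.thick i₀) (l := l + n i₀ * t) (t := t) (spc_norm hv (j * t))
    have h3 := D₀.A_loc (κ i₀ (l + n i₀ * t, v * ex (j * t))) t (spc_off hκ _ (spc_norm hv _))
    have h4 : IsLocalDiffeomorphAt 𝓘(ℝ, ℝ × ℂ × ℝ) (𝓡 4) ∞ (D₀.A ∘ fun q : ℝ × ℂ × ℝ => (κ i₀ (q.1, q.2.1), q.2.2))
        (l + n i₀ * t, v * ex (j * t), t) := IsLocalDiffeomorphAt.comp (hf := h2) (hg := h3)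
    exact IsLocalDiffeomorphAt.comp (hf := h1) (hg := h4)
  · obtain ⟨h1, m, h2⟩ := D₀.A_inj _ _ _ _ (spc_off hκ _ (spc_norm hv _)) (spc_off hκ _ (spc_norm hv' _)) he
    obtain ⟨h3, m', h4⟩ := (hκ.thick i₀).inj _ _ _ _ (spc_norm hv _) (spc_norm hv' _) h1
    change t' = t + m at h2
    change v * ex (j * t) = v' * ex (j * t') at h3
    change l' + n i₀ * t' = l + n i₀ * t + m' at h4
    refine ⟨?_, ⟨m' - n i₀ * m, ?_⟩, m, h2⟩
    · have h5 : ex (j * t') = ex (j * t) := by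
        rw [h2, show (j : ℝ) * (t + m) = j * t + ((j * m : ℤ) : ℝ) by push_cast; ring, ex_add_int]
      rw [h5] at h3
      exact mul_right_cancel₀ (ex_ne _) h3
    · push_cast
      rw [h2] at h4
      linear_combination h4

theorem comp_spin (hκ : ThickL κ) (hU : ∀ i, Uni (a₁ i) (b₁ i) (a₂ i) (b₂ i)) {j : ℤ} (h1 : a₁ i₀ = 0) (h2 : b₁ i₀ = 1)
    (h3 : a₂ i₀ = 1) (h4 : b₂ i₀ = -j)
    (D₀ : TwinL (fun i : {i // i ≠ i₀} => κ i) (fun i => a₁ i) (fun i => b₁ i) (fun i => a₂ i) (fun i => b₂ i) (fun i => n i) Y)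
    {X : Type*} [TopologicalSpace X] [ChartedSpace E4 X]
    (D₁ : TwMF (𝓡 4) (fun _ : Unit => spT κ i₀ (n i₀) j D₀.A) X) : Nonempty (TwinL κ a₁ b₁ a₂ b₂ n X) := by
  classical
  have hT := spT_thick hκ D₀ j
  -- the points off the link are off the torus
  have hon : ∀ (x : N) (t : ℝ), ¬ OnLink κ x → ¬ LKF.OnF (fun _ : Unit => spT κ i₀ (n i₀) j D₀.A) (D₀.A (x, t)) := by
    rintro x t hx ⟨_, l, u, he⟩
    have h5 := (D₀.A_inj _ _ _ _ (spc_sub_off hx) (spc_off hκ _ (spc_norm (by simp) _)) he).1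
    rw [zero_mul] at h5
    exact hx ⟨i₀, _, h5⟩
  -- the points of the first twins are not in the tube
  have hQ : ∀ (i : {i // i ≠ i₀}) (z : S4), fh z ≠ 0 → ∀ (l : ℝ) (v : ℂ) (u : ℝ), ‖v‖ < 1 →
      D₀.Q i z ≠ spT κ i₀ (n i₀) j D₀.A (l, v, u) := by
    intro i z hz l v u hv he
    have hoff := spc_off (i₀ := i₀) hκ (l + n i₀ * u) (spc_norm hv (j * u))
    by_cases h5 : c1 z = 0
    · exact D₀.disj i z _ _ hz (Or.inl h5) hoff he
    by_cases h6 : c2 z = 0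
    · exact D₀.disj i z _ _ hz (Or.inr h6) hoff he
    obtain ⟨l', m', t', hp⟩ := NHS.ph_exists (hU i) (n i) z
    rw [D₀.glue i z l' m' t' hz h5 h6 hp.p1 hp.p2 hp.p3] at he
    have hv1 := glue_norm hz m'
    have hv0 := NHS.mor_nv h5 h6 m'
    have h7 := (D₀.A_inj _ _ _ _ (notOn (spc_sub hκ) i hv0 hv1) hoff he).1
    exact i.2 (hκ.disj i i₀ _ _ _ _ hv1 (spc_norm hv _) h7)
  have hQo : ∀ (i : {i // i ≠ i₀}) (z : S4), fh z ≠ 0 →
      ¬ LKF.OnF (fun _ : Unit => spT κ i₀ (n i₀) j D₀.A) (D₀.Q i z) := by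
    rintro i z hz ⟨_, l, t, he⟩
    exact hQ i z hz l 0 t (by simp) he
  have hTo : ∀ (l : ℝ) (v : ℂ) (u : ℝ), v ≠ 0 → ‖v‖ < 1 →
      ¬ LKF.OnF (fun _ : Unit => spT κ i₀ (n i₀) j D₀.A) (spT κ i₀ (n i₀) j D₀.A (l, v, u)) := by
    rintro l v u h0 hv ⟨_, l', u', he⟩
    exact h0 (hT.inj _ _ _ _ _ _ hv (by simp) he).1
  have hQQ : ∀ (i : {i // i ≠ i₀}) (z z' : S4), fh z ≠ 0 → fh z' ≠ 0 → D₁.A (D₀.Q i z) ≠ D₁.Q () z' := by
    intro i z z' hz hz' he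
    by_cases h5 : c1 z' = 0
    · exact D₁.disj () z' _ hz' (Or.inl h5) (hQo i z hz) he.symm
    by_cases h6 : c2 z' = 0
    · exact D₁.disj () z' _ hz' (Or.inr h6) (hQo i z hz) he.symm
    have g := D₁.glue () z' (Complex.arg (fh z') / (2 * Real.pi)) (Complex.arg (c2 z') / (2 * Real.pi))
      (Complex.arg (c1 z') / (2 * Real.pi)) hz' h5 h6 ex_arg.symm ex_arg.symm ex_arg.symm
    rw [g] at he
    have hv1 := glue_norm hz' (Complex.arg (c2 z') / (2 * Real.pi))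
    have hv0 := NHS.mor_nv h5 h6 (Complex.arg (c2 z') / (2 * Real.pi))
    exact hQ i z hz _ _ _ hv1 (D₁.A_inj _ _ (hQo i z hz) (hTo _ _ _ hv0 hv1) he)
  have hA : ∀ (x : N) (t : ℝ), ¬ OnLink κ x →
      IsLocalDiffeomorphAt ((𝓡 3).prod 𝓘(ℝ, ℝ)) (𝓡 4) ∞ (fun q => D₁.A (D₀.A q)) (x, t) := fun x t hx =>
    IsLocalDiffeomorphAt.comp (hf := D₀.A_loc x t (spc_sub_off hx)) (hg := D₁.A_loc _ (hon x t hx)) ..
  have e0 : ∀ z : S4, (fun i z => if h : i = i₀ then D₁.Q () z else D₁.A (D₀.Q ⟨i, h⟩ z)) i₀ z = D₁.Q () z := by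
    intro z
    simp
  have e1 : ∀ (i : ι) (h : i ≠ i₀) (z : S4),
      (fun i z => if h : i = i₀ then D₁.Q () z else D₁.A (D₀.Q ⟨i, h⟩ z)) i z = D₁.A (D₀.Q ⟨i, h⟩ z) := by
    intro i h z
    simp [h]
  obtain ⟨Q, hQdef⟩ : ∃ Q : ι → S4 → X, Q = fun i z => if h : i = i₀ then D₁.Q () z else D₁.A (D₀.Q ⟨i, h⟩ z) := ⟨_, rfl⟩
  rw [← hQdef] at e0
  rw [← hQdef] at e1
  have f0 : Q i₀ = D₁.Q () := funext e0
  have f1 : ∀ (i : ι) (h : i ≠ i₀), Q i = fun z => D₁.A (D₀.Q ⟨i, h⟩ z) := fun i h => funext (e1 i h)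
  refine ⟨{
    A := fun q => D₁.A (D₀.A q)
    Q := Q
    A_per := fun x t => by rw [D₀.A_per]
    A_loc := hA
    A_inj := ?_
    Q_loc := ?_
    Q_inj := ?_
    glue := ?_
    disj := ?_
    cover := ?_ }⟩
  · intro x x' t t' hx hx' he
    exact D₀.A_inj _ _ _ _ (spc_sub_off hx) (spc_sub_off hx') (D₁.A_inj _ _ (hon x t hx) (hon x' t' hx') he)
  · intro i z hz
    by_cases h : i = i₀
    · subst h
      rw [f0]
      exact D₁.Q_loc () z hz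
    · rw [f1 i h]
      exact IsLocalDiffeomorphAt.comp (hf := D₀.Q_loc ⟨i, h⟩ z hz) (hg := D₁.A_loc _ (hQo ⟨i, h⟩ z hz)) ..
  · intro i z i' z' hz hz' he
    by_cases h : i = i₀
    · subst h
      by_cases h' : i' = i
      · subst h'
        rw [f0] at he
        exact ⟨rfl, (D₁.Q_inj _ _ _ _ hz hz' he).2⟩
      · rw [f0, f1 i' h'] at he
        exact absurd he.symm (hQQ ⟨i', h'⟩ z' z hz' hz)
    · by_cases h' : i' = i₀
      · subst h'
        rw [f0, f1 i h] at he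
        exact absurd he (hQQ ⟨i, h⟩ z z' hz hz')
      · rw [f1 i h, f1 i' h'] at he
        have h5 := D₀.Q_inj _ _ _ _ hz hz' (D₁.A_inj _ _ (hQo ⟨i, h⟩ z hz) (hQo ⟨i', h'⟩ z' hz') he)
        exact ⟨congrArg Subtype.val h5.1, h5.2⟩
  · intro i z l m t hz h5 h6 g1 g2 g3
    by_cases h : i = i₀
    · subst h
      rw [f0]
      rw [h1, h2] at g1
      rw [h3, h4] at g2
      have g1' : c1 z = ‖c1 z‖ * ex t := by
        rw [show (((0 : ℤ) : ℝ) * m + ((1 : ℤ) : ℝ) * t) = t by push_cast; ring] at g1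
        exact g1
      have g2' : c2 z = ‖c2 z‖ * ex (m - j * t) := by
        rw [show (((1 : ℤ) : ℝ) * m + ((-j : ℤ) : ℝ) * t) = m - j * t by push_cast; ring] at g2
        exact g2
      rw [D₁.glue () z (l - n i * t) (m - j * t) t hz h5 h6 g1' g2' g3]
      show D₁.A (D₀.A (κ i (l - n i * t + n i * t, _ * ex (m - j * t) * ex (j * t)), t)) = _
      rw [sub_add_cancel, mul_assoc, ← ex_add, sub_add_cancel]
    · rw [f1 i h]
      exact congrArg D₁.A (D₀.glue ⟨i, h⟩ z l m t hz h5 h6 g1 g2 g3)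
  · intro i z x t hz hc hx he
    by_cases h : i = i₀
    · subst h
      rw [f0] at he
      exact D₁.disj () z _ hz hc (hon x t hx) he
    · rw [f1 i h] at he
      exact D₀.disj ⟨i, h⟩ z x t hz hc (spc_sub_off hx) (D₁.A_inj _ _ (hQo ⟨i, h⟩ z hz) (hon x t hx) he)
  · intro q
    rcases D₁.cover q with ⟨y, hy, rfl⟩ | ⟨_, z, hz, rfl⟩
    · rcases D₀.cover y with ⟨x, t, hx, rfl⟩ | ⟨i, z, hz, rfl⟩
      · refine Or.inl ⟨x, t, ?_, rfl⟩
        rintro ⟨i, l, hl⟩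
        by_cases h : i = i₀
        · subst h
          refine hy ⟨(), l - n i * t, t, ?_⟩
          show D₀.A (x, t) = D₀.A (κ i (l - n i * t + n i * t, 0 * ex (j * t)), t)
          rw [sub_add_cancel, zero_mul, hl]
        · exact hx ⟨⟨i, h⟩, l, hl⟩
      · exact Or.inr ⟨i.1, z, hz, by rw [f1 i.1 i.2]⟩
    · exact Or.inr ⟨i₀, z, hz, by rw [f0]⟩

end Pool.Agent.LNS
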