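import Pool.Agent.LNS.Defs
import Pool.Agent.NHS.UnR

/-!
# LNS/UnL: the twin manifold of a link is unique; transport; reindexing   (difficulty 3)

PROOFS.  Adapt `NHS/UnR.lean` (the same for one component): `glueL` as `glueR`, `aL_iff` as `unr_A_iff`, `uniqL` as `uniqR` with the two sets
`{a : N × ℝ | ¬ OnLink κ a.1}` and `{z : ι × S4 | fh z.2 ≠ 0}`; if `RSG.glue_diffeo` (with `f₂ : S4 → X`) does not allow the index `ι`, build the map directly (define it by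
`choose`, show that it is well defined and a local diffeomorphism; see `LKS/Uni.lean`, `Uni_map`, `Uni_map_ld`, `twin_uniq`: there the family of twins is the same and only the matrix is
special).  The only properties of the matrices: the phases exist (`NHS.ph_exists`) and are unique (`NHS.ph_unique`).
`notOn`: `κ i (l, v)`, `0 < ‖v‖ < 1`, is not on the link: `hκ.disj` and `(hκ.thick i).inj`.
`onL_closed`: finite union of the compact sets `κ i '' (Icc 0 1 ×ˢ {0})` (`RSG.Uniq_open (hκ.thick i)` : the set of points on one knot is closed).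
`transL`: compose with `G`.  `twin_eL`: `Q' i = Q (e i)`, the points on the link are the same (`OnLink (fun i => κ (e i)) x ↔ OnLink κ x`).
-/

open scoped Manifold ContDiff Topology
open Set Filter
open Complex (I)
open Pool.Agent.RSG
open Pool.Agent.NHS (Uni GcR)
open Pool.Agent.LKZ (ThickL OnLink TwinL)

namespace Pool.Agent.LNS

variable {N : Type*} [TopologicalSpace N] [ChartedSpace E3 N] {ι : Type*} {κ : ι → ℝ × ℂ → N} {a₁ b₁ a₂ b₂ n : ι → ℤ}
  {X : Type*} [TopologicalSpace X] [ChartedSpace E4 X] {Y : Type*} [TopologicalSpace Y] [ChartedSpace E4 Y]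

theorem notOn (hκ : ThickL κ) (i : ι) {l : ℝ} {v : ℂ} (h0 : v ≠ 0) (h1 : ‖v‖ < 1) : ¬ OnLink κ (κ i (l, v)) := by
  rintro ⟨i', l', h⟩
  have h2 : ‖(0 : ℂ)‖ < 1 := by rw [norm_zero]; norm_num
  have h3 := hκ.disj i i' l v l' 0 h1 h2 h
  rw [← h3] at h
  exact h0 ((hκ.thick i).inj l v l' 0 h1 h2 h).1

theorem onL_closed [Finite ι] [T2Space N] (hκ : ThickL κ) : IsClosed {x : N | OnLink κ x} := by
  have h1 : {x : N | OnLink κ x} = ⋃ i, {x | OnKnot (κ i) x} := by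
    ext x
    rw [mem_iUnion]
    exact Iff.rfl
  rw [h1]
  exact isClosed_iUnion_of_finite fun i => Uniq_open (hκ.thick i)

theorem glueL (D : TwinL κ a₁ b₁ a₂ b₂ n X) (i : ι) {l t : ℝ} {v : ℂ} (h0 : v ≠ 0) (h1 : ‖v‖ < 1) :
    D.Q i (GcR (a₁ i) (b₁ i) (a₂ i) (b₂ i) (n i) (l, v, t)) = D.A (κ i (l, v), t) := by
  have hm : v = ‖v‖ * ex (Complex.arg v / (2 * Real.pi)) := ex_arg.symm
  obtain ⟨hf, hc1, hc2, hr, hp⟩ := NHS.gcR_spec (a₁ i) (b₁ i) (a₂ i) (b₂ i) (n i) (l := l) (t := t) h0 h1 hm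
  have h := D.glue i _ l _ t hf hc1 hc2 hp.p1 hp.p2 hp.p3
  rw [h, hr, ← hm]

theorem aL_iff (D : TwinL κ a₁ b₁ a₂ b₂ n X) {x x' : N} {t t' : ℝ} (hx : ¬ OnLink κ x) (hx' : ¬ OnLink κ x') :
    D.A (x, t) = D.A (x', t') ↔ x = x' ∧ ∃ m : ℤ, t' = t + m := by
  constructor
  · exact D.A_inj x x' t t' hx hx'
  · rintro ⟨rfl, m, rfl⟩
    have hp : Function.Periodic (fun t => D.A (x, t)) 1 := fun t => D.A_per x t
    have := hp.int_mul m t
    simp only [mul_one] at this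
    exact this.symm

open Classical in
/-- the comparison map -/
noncomputable def unL_map (D : TwinL κ a₁ b₁ a₂ b₂ n X) (D' : TwinL κ a₁ b₁ a₂ b₂ n Y) (q : X) : Y :=
  if h : ∃ (x : N) (t : ℝ), ¬ OnLink κ x ∧ q = D.A (x, t) then
    D'.A (Classical.choose h, Classical.choose (Classical.choose_spec h))
  else
    have h2 : ∃ (i : ι) (z : S4), fh z ≠ 0 ∧ q = D.Q i z := (D.cover q).resolve_left h
    D'.Q (Classical.choose h2) (Classical.choose (Classical.choose_spec h2))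

theorem unL_map_A (D : TwinL κ a₁ b₁ a₂ b₂ n X) (D' : TwinL κ a₁ b₁ a₂ b₂ n Y) {x : N} (t : ℝ) (hx : ¬ OnLink κ x) :
    unL_map D D' (D.A (x, t)) = D'.A (x, t) := by
  have h : ∃ (x' : N) (t' : ℝ), ¬ OnLink κ x' ∧ D.A (x, t) = D.A (x', t') := ⟨x, t, hx, rfl⟩
  unfold unL_map
  rw [dif_pos h]
  have h1 := Classical.choose_spec (Classical.choose_spec h)
  exact ((aL_iff D' hx h1.1).2 ((aL_iff D hx h1.1).1 h1.2)).symm

theorem unL_map_Q (hκ : ThickL κ) (hU : ∀ i, Uni (a₁ i) (b₁ i) (a₂ i) (b₂ i)) (D : TwinL κ a₁ b₁ a₂ b₂ n X)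
    (D' : TwinL κ a₁ b₁ a₂ b₂ n Y) (i : ι) {z : S4} (hz : fh z ≠ 0) : unL_map D D' (D.Q i z) = D'.Q i z := by
  by_cases hc : c1 z = 0 ∨ c2 z = 0
  · have h : ¬ ∃ (x' : N) (t' : ℝ), ¬ OnLink κ x' ∧ D.Q i z = D.A (x', t') := by
      rintro ⟨x', t', hx', he⟩
      exact D.disj i z x' t' hz hc hx' he
    have h2 : ∃ (i' : ι) (z' : S4), fh z' ≠ 0 ∧ D.Q i z = D.Q i' z' := ⟨i, z, hz, rfl⟩
    unfold unL_map
    rw [dif_neg h]
    have h3 := Classical.choose_spec (Classical.choose_spec h2)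
    obtain ⟨h4, h5⟩ := D.Q_inj _ _ _ _ hz h3.1 h3.2
    show D'.Q (Classical.choose h2) (Classical.choose (Classical.choose_spec h2)) = D'.Q i z
    rw [← h5, ← h4]
  · rw [not_or] at hc
    obtain ⟨l, m, t', hp⟩ := NHS.ph_exists (hU i) (n i) z
    have hg := D.glue i z l m t' hz hc.1 hc.2 hp.p1 hp.p2 hp.p3
    have hg' := D'.glue i z l m t' hz hc.1 hc.2 hp.p1 hp.p2 hp.p3
    have hv1 := glue_norm hz m
    have hv0 : ((2 * ‖c1 z‖ * ‖c2 z‖ : ℝ) : ℂ) * ex m ≠ 0 := by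
      apply mul_ne_zero _ (ex_ne m)
      have := norm_pos_iff.2 hc.1
      have := norm_pos_iff.2 hc.2
      exact_mod_cast (by positivity : (2 * ‖c1 z‖ * ‖c2 z‖ : ℝ) ≠ 0)
    rw [hg, hg']
    exact unL_map_A D D' t' (notOn hκ i hv0 hv1)

theorem unL_map_map (hκ : ThickL κ) (hU : ∀ i, Uni (a₁ i) (b₁ i) (a₂ i) (b₂ i)) (D : TwinL κ a₁ b₁ a₂ b₂ n X)
    (D' : TwinL κ a₁ b₁ a₂ b₂ n Y) (q : X) : unL_map D' D (unL_map D D' q) = q := by
  rcases D.cover q with ⟨x, t, hx, rfl⟩ | ⟨i, z, hz, rfl⟩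
  · rw [unL_map_A D D' t hx, unL_map_A D' D t hx]
  · rw [unL_map_Q hκ hU D D' i hz, unL_map_Q hκ hU D' D i hz]

theorem unL_map_ld [Finite ι] [T2Space N] (hκ : ThickL κ) (hU : ∀ i, Uni (a₁ i) (b₁ i) (a₂ i) (b₂ i))
    (D : TwinL κ a₁ b₁ a₂ b₂ n X) (D' : TwinL κ a₁ b₁ a₂ b₂ n Y) (q : X) :
    IsLocalDiffeomorphAt (𝓡 4) (𝓡 4) ∞ (unL_map D D') q := by
  rcases D.cover q with ⟨x, t, hx, rfl⟩ | ⟨i, z, hz, rfl⟩
  · apply Pool.Agent.CSG.ld_of_comp_left (f := D.A) _ (D.A_loc x t hx)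
    apply Pool.Agent.CSG.ld_congr (D'.A_loc x t hx)
    have ho : IsOpen {y : N × ℝ | ¬ OnLink κ y.1} := (onL_closed hκ).isOpen_compl.preimage continuous_fst
    filter_upwards [ho.mem_nhds hx] with y hy
    exact unL_map_A D D' y.2 hy
  · apply Pool.Agent.CSG.ld_of_comp_left (f := D.Q i) _ (D.Q_loc i z hz)
    apply Pool.Agent.CSG.ld_congr (D'.Q_loc i z hz)
    have ho : IsOpen {x : S4 | fh x ≠ 0} := isOpen_ne_fun fh_smooth.continuous continuous_const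
    filter_upwards [ho.mem_nhds hz] with x hx
    exact unL_map_Q hκ hU D D' i hx

/-- **Uniqueness.** -/
theorem uniqL [Finite ι] [T2Space N] (hκ : ThickL κ) (hU : ∀ i, Uni (a₁ i) (b₁ i) (a₂ i) (b₂ i))
    (D : TwinL κ a₁ b₁ a₂ b₂ n X) (D' : TwinL κ a₁ b₁ a₂ b₂ n Y) : Nonempty (X ≃ₘ⟮𝓡 4, 𝓡 4⟯ Y) := by
  have hb : Function.Bijective (unL_map D D') :=
    ⟨Function.LeftInverse.injective (unL_map_map hκ hU D D'),
      Function.RightInverse.surjective (unL_map_map hκ hU D' D)⟩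
  exact ⟨IsLocalDiffeomorph.diffeomorphOfBijective (f := unL_map D D') (fun q => unL_map_ld hκ hU D D' q) hb⟩

theorem transL (D : TwinL κ a₁ b₁ a₂ b₂ n X) (G : X ≃ₘ⟮𝓡 4, 𝓡 4⟯ Y) : Nonempty (TwinL κ a₁ b₁ a₂ b₂ n Y) := by
  refine ⟨{
    A := fun q => G (D.A q)
    Q := fun i z => G (D.Q i z)
    A_per := fun x t => by rw [D.A_per]
    A_loc := fun x t hx => IsLocalDiffeomorphAt.comp (hf := D.A_loc x t hx) (hg := G.isLocalDiffeomorph _) ..
    A_inj := fun x x' t t' hx hx' h => D.A_inj x x' t t' hx hx' (G.injective h)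
    Q_loc := fun i z hz => IsLocalDiffeomorphAt.comp (hf := D.Q_loc i z hz) (hg := G.isLocalDiffeomorph _) ..
    Q_inj := fun i z i' z' hz hz' h => D.Q_inj i z i' z' hz hz' (G.injective h)
    glue := fun i z l m t hf h1 h2 e1 e2 e3 => by rw [D.glue i z l m t hf h1 h2 e1 e2 e3]
    disj := fun i z x t hz hc hx h => D.disj i z x t hz hc hx (G.injective h)
    cover := ?_ }⟩
  intro q
  rcases D.cover (G.symm q) with ⟨x, t, hx, hq⟩ | ⟨i, z, hz, hq⟩
  · refine Or.inl ⟨x, t, hx, ?_⟩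
    rw [← hq]
    exact (G.apply_symm_apply q).symm
  · refine Or.inr ⟨i, z, hz, ?_⟩
    rw [← hq]
    exact (G.apply_symm_apply q).symm

theorem twin_eL {ι' : Type*} (e : ι' ≃ ι) (D : TwinL κ a₁ b₁ a₂ b₂ n X) :
    Nonempty (TwinL (fun i => κ (e i)) (fun i => a₁ (e i)) (fun i => b₁ (e i)) (fun i => a₂ (e i)) (fun i => b₂ (e i))
      (fun i => n (e i)) X) := by
  have hiff : ∀ x : N, OnLink (fun i => κ (e i)) x ↔ OnLink κ x := by
    intro x
    constructor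
    · rintro ⟨i, hi⟩
      exact ⟨e i, hi⟩
    · rintro ⟨i, hi⟩
      refine ⟨e.symm i, ?_⟩
      show OnKnot (κ (e (e.symm i))) x
      rw [e.apply_symm_apply]
      exact hi
  refine ⟨{
    A := D.A
    Q := fun i z => D.Q (e i) z
    A_per := D.A_per
    A_loc := fun x t hx => D.A_loc x t fun h => hx ((hiff x).2 h)
    A_inj := fun x x' t t' hx hx' h => D.A_inj x x' t t' (fun h => hx ((hiff x).2 h)) (fun h => hx' ((hiff x').2 h)) h
    Q_loc := fun i z hz => D.Q_loc (e i) z hz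
    Q_inj := fun i z i' z' hz hz' h => by
      obtain ⟨h1, h2⟩ := D.Q_inj (e i) z (e i') z' hz hz' h
      exact ⟨e.injective h1, h2⟩
    glue := fun i z l m t hf h1 h2 e1 e2 e3 => D.glue (e i) z l m t hf h1 h2 e1 e2 e3
    disj := fun i z x t hz hc hx h => D.disj (e i) z x t hz hc (fun h => hx ((hiff x).2 h)) h
    cover := ?_ }⟩
  intro q
  rcases D.cover q with ⟨x, t, hx, hq⟩ | ⟨i, z, hz, hq⟩
  · exact Or.inl ⟨x, t, fun h => hx ((hiff x).1 h), hq⟩
  · refine Or.inr ⟨e.symm i, z, hz, ?_⟩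
    show q = D.Q (e (e.symm i)) z
    rw [e.apply_symm_apply]
    exact hq

end Pool.Agent.LNS
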